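import Pool.Agent.KRD.Stmts
import Pool.Agent.KRC.Smv
import Pool.Agent.KRC.Bnd

/-!
# The Korenblum constant for zero-free functions: local bounds (module `BD0`)
-/

set_option autoImplicit false

namespace Pool.Agent.KRD

open Complex MeasureTheory Set Filter Topology Metric
open Pool.Agent.KRB (Berg nrm)
open Pool.Agent.KRC (An Dp LimA S_HAR S_MON S_HOP S_EXT)

namespace BD0Aux

open scoped ENNReal

/-- the norm is monotone in the integral -/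
theorem nrm_mono {q : ℝ} (hq : 0 < q) {f g : ℂ → ℂ}
    (h : ∫ z in ball (0 : ℂ) 1, ‖f z‖ ^ q ≤ ∫ z in ball (0 : ℂ) 1, ‖g z‖ ^ q) :
    nrm q f ≤ nrm q g := by
  have h0 : 0 ≤ ∫ z in ball (0 : ℂ) 1, ‖f z‖ ^ q :=
    integral_nonneg fun z => by positivity
  exact Real.rpow_le_rpow h0 h (by positivity)

/-- the integral inequality -/
theorem int_lt {q : ℝ} (hq : 0 < q) {f g : ℂ → ℂ} (hf : Berg q f) (hg : Berg q g)
    (hlt : nrm q g < nrm q f) :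
    ∫ z in ball (0 : ℂ) 1, (‖g z‖ ^ q - ‖f z‖ ^ q) < 0 := by
  rw [integral_sub hg.2 hf.2, sub_neg]
  by_contra hcon
  rw [not_lt] at hcon
  exact absurd hlt (not_lt.2 (nrm_mono hq hcon))

/-- a bad pair has a point where the inequality is reversed -/
theorem exists_pt {q : ℝ} (hq : 0 < q) {f g : ℂ → ℂ} (hf : Berg q f) (hg : Berg q g)
    (hlt : nrm q g < nrm q f) : ∃ z : ℂ, ‖z‖ < 1 ∧ ‖g z‖ < ‖f z‖ := by
  by_contra hcon
  push Not at hcon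
  have h1 : nrm q f ≤ nrm q g := by
    refine nrm_mono hq (setIntegral_mono_on hf.2 hg.2 measurableSet_ball fun z hz => ?_)
    rw [mem_ball_zero_iff] at hz
    exact Real.rpow_le_rpow (norm_nonneg _) (hcon z hz) hq.le
  exact absurd hlt (not_lt.2 h1)

/-- the gain on the annulus -/
theorem gain {q x y η : ℝ} (hq : 0 < q) (hx : 0 ≤ x) (hy : 0 ≤ y) (h1 : η < 1)
    (h : x ≤ (1 - η) * y) : (1 - (1 - η) ^ q) * y ^ q ≤ y ^ q - x ^ q := by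
  have h3 : x ^ q ≤ ((1 - η) * y) ^ q := Real.rpow_le_rpow hx h hq.le
  have h2 : ((1 - η) * y) ^ q = (1 - η) ^ q * y ^ q := Real.mul_rpow (by linarith) hy
  rw [h2] at h3
  linarith

/-- the integral bound on the annulus -/
theorem int_ann {q η α r₁ β : ℝ} (hq : 0 < q) {f g : ℂ → ℂ} (hf : Berg q f)
    (hg : Berg q g) (hlt : nrm q g < nrm q f) (he0 : 0 < η) (he1 : η < 1) (hβ : β ≤ 1)
    (h1 : ∀ z : ℂ, ‖z‖ ≤ r₁ → ‖f z‖ ≤ 1)
    (h2 : ∀ z : ℂ, r₁ < ‖z‖ → ‖z‖ < 1 → ‖f z‖ ≤ ‖g z‖)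
    (h3 : ∀ z : ℂ, α < ‖z‖ → ‖z‖ < β → ‖f z‖ ≤ (1 - η) * ‖g z‖) :
    IntegrableOn (fun z => ‖g z‖ ^ q) {z : ℂ | α < ‖z‖ ∧ ‖z‖ < β} ∧
    ∫ z in {z : ℂ | α < ‖z‖ ∧ ‖z‖ < β}, ‖g z‖ ^ q ≤
      volume.real (ball (0 : ℂ) 1) / (1 - (1 - η) ^ q) := by
  have hAo : IsOpen {z : ℂ | α < ‖z‖ ∧ ‖z‖ < β} := KRC.Bas.isOpen_annulus α β
  have hAs : {z : ℂ | α < ‖z‖ ∧ ‖z‖ < β} ⊆ ball 0 1 := KRC.Bas.annulus_sub hβ
  set A : Set ℂ := {z : ℂ | α < ‖z‖ ∧ ‖z‖ < β} with hA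
  have hAm : MeasurableSet A := hAo.measurableSet
  refine ⟨hg.2.mono_set hAs, ?_⟩
  set t : ℝ := 1 - (1 - η) ^ q with ht
  have ht0 : 0 < t := by
    have : (1 - η) ^ q < 1 := Real.rpow_lt_one (by linarith) (by linarith) hq
    linarith
  -- the pointwise inequality
  have hpt : ∀ z ∈ ball (0 : ℂ) 1,
      A.indicator (fun z => t * ‖g z‖ ^ q) z - 1 ≤ ‖g z‖ ^ q - ‖f z‖ ^ q := by
    intro z hz
    rw [mem_ball_zero_iff] at hz
    by_cases hzA : z ∈ A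
    · rw [indicator_of_mem hzA]
      have := gain hq (norm_nonneg (f z)) (norm_nonneg (g z)) he1 (h3 z hzA.1 hzA.2)
      rw [← ht] at this
      linarith
    · rw [indicator_of_notMem hzA]
      rcases le_or_gt ‖z‖ r₁ with h | h
      · have h4 : ‖f z‖ ^ q ≤ 1 := Real.rpow_le_one (norm_nonneg _) (h1 z h) hq.le
        have h5 : 0 ≤ ‖g z‖ ^ q := by positivity
        linarith
      · have h4 : ‖f z‖ ^ q ≤ ‖g z‖ ^ q :=
          Real.rpow_le_rpow (norm_nonneg _) (h2 z h hz) hq.le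
        linarith
  have hD : IntegrableOn (fun z => ‖g z‖ ^ q - ‖f z‖ ^ q) (ball 0 1) := hg.2.sub hf.2
  have hI1 : IntegrableOn (A.indicator (fun z => t * ‖g z‖ ^ q)) (ball 0 1) :=
    (hg.2.const_mul t).indicator hAm
  have hI2 : IntegrableOn (fun _ : ℂ => (1 : ℝ)) (ball 0 1) :=
    integrableOn_const measure_ball_lt_top.ne
  have h5 : ∫ z in ball (0 : ℂ) 1, (A.indicator (fun z => t * ‖g z‖ ^ q) z - 1) ≤
      ∫ z in ball (0 : ℂ) 1, (‖g z‖ ^ q - ‖f z‖ ^ q) :=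
    setIntegral_mono_on (hI1.sub hI2) hD measurableSet_ball hpt
  have h6 := int_lt hq hf hg hlt
  have h7 : ∫ z in ball (0 : ℂ) 1, (A.indicator (fun z => t * ‖g z‖ ^ q) z - 1) =
      t * (∫ z in A, ‖g z‖ ^ q) - volume.real (ball (0 : ℂ) 1) * 1 := by
    rw [integral_sub hI1 hI2, setIntegral_indicator hAm, inter_eq_right.2 hAs,
      integral_const_mul, setIntegral_const, smul_eq_mul]
  rw [h7] at h5
  rw [le_div_iff₀ ht0]
  linarith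

/-- the bound on the circle of radius `ρ` -/
theorem onCircle {a ρ b R : ℝ} (hR : 0 < R) (h1 : a + R < ρ) (h2 : ρ + R < b) (hb : b ≤ 1)
    {q M : ℝ} {g : ℂ → ℂ} (hq0 : 0 < q) (hg : DifferentiableOn ℂ g (ball 0 1))
    (hi : IntegrableOn (fun z => ‖g z‖ ^ q) {z : ℂ | a < ‖z‖ ∧ ‖z‖ < b})
    (hM : ∫ z in {z : ℂ | a < ‖z‖ ∧ ‖z‖ < b}, ‖g z‖ ^ q ≤ M) {z : ℂ} (hz : ‖z‖ = ρ) :
    Real.pi * R ^ 2 * ‖g z‖ ^ q ≤ M := by
  have hsub : ∀ w ∈ closedBall z R, a < ‖w‖ ∧ ‖w‖ < b := by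
    intro w hw
    rw [mem_closedBall, dist_eq_norm] at hw
    constructor
    · have := norm_sub_norm_le z w
      rw [norm_sub_rev] at this
      linarith
    · have := norm_sub_norm_le w z
      linarith
  have hA : AnalyticOnNhd ℂ g (closedBall z R) :=
    (hg.analyticOnNhd isOpen_ball).mono fun w hw => by
      rw [mem_ball_zero_iff]
      exact (hsub w hw).2.trans_le hb
  have key := KRC.SMVAux.area_submean hR hA hq0
  have h3 : ∫⁻ w in ball z R, ‖g w‖ₑ ^ q ≤ ∫⁻ w in {w : ℂ | a < ‖w‖ ∧ ‖w‖ < b}, ‖g w‖ₑ ^ q :=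
    lintegral_mono_set fun w hw => hsub w (ball_subset_closedBall hw)
  have h4 : ∫⁻ w in {w : ℂ | a < ‖w‖ ∧ ‖w‖ < b}, ‖g w‖ₑ ^ q =
      ENNReal.ofReal (∫ w in {w : ℂ | a < ‖w‖ ∧ ‖w‖ < b}, ‖g w‖ ^ q) := by
    rw [ofReal_integral_eq_lintegral_ofReal hi (Eventually.of_forall fun w => by positivity)]
    exact lintegral_congr fun w => KRC.SMVAux.enorm_rpow _ hq0
  have hM0 : 0 ≤ M := le_trans (integral_nonneg fun w => by positivity) hM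
  have h5 : ENNReal.ofReal (Real.pi * R ^ 2 * ‖g z‖ ^ q) ≤ ENNReal.ofReal M := by
    rw [ENNReal.ofReal_mul (by positivity), ← KRC.SMVAux.enorm_rpow _ hq0]
    exact key.trans (h3.trans (h4.le.trans (ENNReal.ofReal_le_ofReal hM)))
  exact (ENNReal.ofReal_le_ofReal_iff hM0).1 h5

end BD0Aux

open BD0Aux in
theorem bd0 (hN : S_NZ) : S_BD0 := by
  intro c₂ r₁ q hc₂ hcr hr₁ hq
  have hr₁0 : 0 < r₁ := lt_of_le_of_lt hc₂ hcr
  have main : ∀ b : ℝ, ∃ C : ℝ, b < 1 → ∀ (c' : ℝ) (f g : ℂ → ℂ), 0 ≤ c' → c' ≤ c₂ →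
      Berg q f → Berg q g → (∀ z : ℂ, ‖z‖ < 1 → f z ≠ 0) → (∀ z ∈ An c', ‖f z‖ ≤ ‖g z‖) →
      nrm q g < nrm q f → (∀ z : ℂ, ‖z‖ ≤ r₁ → ‖g z‖ ≤ 1) →
      ∀ z : ℂ, ‖z‖ ≤ b → ‖f z‖ ≤ C ∧ ‖g z‖ ≤ C := by
    intro b
    by_cases hb : b < 1
    swap
    · exact ⟨1, fun h => absurd h hb⟩
    have hm : max b r₁ < 1 := max_lt hb hr₁
    have hm' : r₁ ≤ max b r₁ := le_max_right _ _
    obtain ⟨η, hη0, hη1, hη⟩ := hN c₂ ((c₂ + r₁) / 2) ((1 + max b r₁) / 2) hc₂ (by linarith)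
      (by linarith) (by linarith)
    set ρ : ℝ := max b r₁ with hρ
    set α : ℝ := (c₂ + r₁) / 2 with hα
    set β : ℝ := (1 + ρ) / 2 with hβ
    set R : ℝ := min ((ρ - α) / 2) ((β - ρ) / 2) with hR
    have hαρ : α < ρ := by linarith
    have hρβ : ρ < β := by linarith
    have hR0 : 0 < R := lt_min (by linarith) (by linarith)
    have hR1 : α + R < ρ := by
      have := min_le_left ((ρ - α) / 2) ((β - ρ) / 2)
      rw [← hR] at this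
      linarith
    have hR2 : ρ + R < β := by
      have := min_le_right ((ρ - α) / 2) ((β - ρ) / 2)
      rw [← hR] at this
      linarith
    have hρ0 : 0 < ρ := hr₁0.trans_le hm'
    have hP : 0 < Real.pi * R ^ 2 := by positivity
    set M : ℝ := volume.real (ball (0 : ℂ) 1) / (1 - (1 - η) ^ q) with hMd
    refine ⟨((Real.pi * R ^ 2)⁻¹ * M) ^ q⁻¹, fun _ => ?_⟩
    intro c' f g hc' hc'2 hf hg hf0 hfg hlt hg1 z hz
    have hf1 : ∀ z : ℂ, ‖z‖ ≤ r₁ → ‖f z‖ ≤ 1 := by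
      refine KRC.BNDAux.maxp hf.1 hr₁0 hr₁ ?_
      intro z hz
      exact (hfg z ⟨by rw [hz]; linarith, by rw [hz]; exact hr₁⟩).trans (hg1 z hz.le)
    have hη' := hη c' f g hc' hc'2 hf.1 hg.1 hf0 hfg (exists_pt hq hf hg hlt)
    have hint := int_ann (α := α) (β := β) (r₁ := r₁) hq hf hg hlt hη0 hη1 (by linarith) hf1
      (fun z hz1 hz2 => hfg z ⟨by linarith, hz2⟩) (fun z hz1 hz2 => hη' z hz1.le hz2.le)
    have hM0 : 0 ≤ M := le_trans (integral_nonneg fun w => by positivity) hint.2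
    have hCM : 0 ≤ (Real.pi * R ^ 2)⁻¹ * M := by positivity
    have hgc : ∀ w : ℂ, ‖w‖ = ρ → ‖g w‖ ≤ ((Real.pi * R ^ 2)⁻¹ * M) ^ q⁻¹ := by
      intro w hw
      rw [Real.le_rpow_inv_iff_of_pos (norm_nonneg _) hCM hq]
      have := onCircle hR0 hR1 hR2 (by linarith) hq hg.1 hint.1 hint.2 hw
      rw [← div_eq_inv_mul, le_div_iff₀ hP]
      linarith
    have hfc : ∀ w : ℂ, ‖w‖ = ρ → ‖f w‖ ≤ ((Real.pi * R ^ 2)⁻¹ * M) ^ q⁻¹ := by
      intro w hw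
      exact (hfg w ⟨by rw [hw]; linarith, by rw [hw]; exact hm⟩).trans (hgc w hw)
    have hz' : ‖z‖ ≤ ρ := hz.trans (le_max_left _ _)
    exact ⟨KRC.BNDAux.maxp hf.1 hρ0 hm hfc z hz', KRC.BNDAux.maxp hg.1 hρ0 hm hgc z hz'⟩
  choose C hC using main
  exact ⟨C, fun c' f g h1 h2 h3 h4 h5 h6 h7 h8 b hb z hz => hC b hb c' f g h1 h2 h3 h4 h5 h6 h7 h8 z hz⟩

end Pool.Agent.KRD
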