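import Pool.Agent.KRC.Bas

/-!
# The Korenblum constant for zero-free functions: definitions
-/

set_option autoImplicit false

namespace Pool.Agent.KRD

open Complex MeasureTheory Set Filter Topology Metric
open Pool.Agent.KRB (Berg nrm)

/-- `c` has the Korenblum property for `p` and zero-free `f` -/
def KP0 (p c : ℝ) : Prop := ∀ f g : ℂ → ℂ, Berg p f → Berg p g →
  (∀ z : ℂ, ‖z‖ < 1 → f z ≠ 0) →
  (∀ z : ℂ, c < ‖z‖ → ‖z‖ < 1 → ‖f z‖ ≤ ‖g z‖) → nrm p f ≤ nrm p g

/-- the Korenblum constant for zero-free `f` -/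
noncomputable def kap0 (p : ℝ) : ℝ := sSup {c : ℝ | 0 < c ∧ c < 1 ∧ KP0 p c}

end Pool.Agent.KRD
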