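import Pool.Agent.KRD.Stmts
import Pool.Agent.KRC.Dil

/-!
# The Korenblum constant for zero-free functions: dilation
-/

set_option autoImplicit false

namespace Pool.Agent.KRD

open Complex MeasureTheory Set Filter Topology Metric
open Pool.Agent.KRB

namespace DI0Aux

/-- the inequality of integrals from the inequality of norms -/
theorem int_le {p κ : ℝ} (hp : 0 < p) (hK : KP0 p κ) {f g : ℂ → ℂ} (hf : Berg p f)
    (hg : Berg p g) (h0 : ∀ z : ℂ, ‖z‖ < 1 → f z ≠ 0)
    (h : ∀ z : ℂ, κ < ‖z‖ → ‖z‖ < 1 → ‖f z‖ ≤ ‖g z‖) :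
    ∫ z in ball (0 : ℂ) 1, ‖f z‖ ^ p ≤ ∫ z in ball (0 : ℂ) 1, ‖g z‖ ^ p := by
  have h1 := hK f g hf hg h0 h
  rw [nrm, nrm, Real.rpow_le_rpow_iff _ _ (by positivity)] at h1
  · exact h1
  · apply integral_nonneg
    intro z
    positivity
  · apply integral_nonneg
    intro z
    positivity

end DI0Aux

open KRC.DILAux in
theorem di0 : S_DI0 := by
  intro p κ r F G hp hK hr0 hr1 hF hG h0 hle
  have h1 := DI0Aux.int_le hp hK (berg hp hr0 hr1 hF) (berg hp hr0 hr1 hG) (by
    intro z hz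
    refine h0 _ ?_
    rw [norm_mul, norm_real, Real.norm_of_nonneg hr0.le]
    nlinarith [norm_nonneg z]) (by
    intro z h1 h2
    refine hle _ ?_ ?_
    · rw [norm_mul, norm_real, Real.norm_of_nonneg hr0.le]
      exact mul_lt_mul_of_pos_left h1 hr0
    · rw [norm_mul, norm_real, Real.norm_of_nonneg hr0.le]
      calc r * ‖z‖ < r * 1 := mul_lt_mul_of_pos_left h2 hr0
        _ = r := mul_one r)
  rw [subst hr0 fun w => ‖F w‖ ^ p, subst hr0 fun w => ‖G w‖ ^ p]
  exact mul_le_mul_of_nonneg_left h1 (by positivity)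

end Pool.Agent.KRD
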