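import Pool.Agent.KRD.Stmts
import Pool.Agent.KRC.Exr

/-!
# The Korenblum constant for zero-free functions: extraction of a convergent sequence
-/

set_option autoImplicit false

namespace Pool.Agent.KRD

open Complex MeasureTheory Set Filter Topology Metric
open Pool.Agent.KRB (Berg nrm)
open Pool.Agent.KRC (An Dp LimA S_HAR S_MON S_HOP S_EXT)

namespace EX0Aux

open Pool.Agent.KRC.EXRAux (nrm_div berg_div ident An_nonempty)

/-- normalised bad pairs -/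
theorem one {q c r : ℝ} (hq : 0 < q) (hc0 : 0 ≤ c) (hc1 : c < 1) (hr0 : 0 < r) (hr1 : r < 1)
    (h : ¬ KP0 q c) : ∃ f g : ℂ → ℂ, Berg q f ∧ Berg q g ∧ (∀ z : ℂ, ‖z‖ < 1 → f z ≠ 0) ∧
      (∀ z ∈ An c, ‖f z‖ ≤ ‖g z‖) ∧ nrm q g < nrm q f ∧
      (∀ z : ℂ, ‖z‖ ≤ r → ‖g z‖ ≤ 1) ∧ ∃ z : ℂ, ‖z‖ ≤ r ∧ ‖g z‖ = 1 := by
  unfold KP0 at h
  push Not at h
  obtain ⟨f, g, hf, hg, hf0, hle, hn⟩ := h
  have hcont : ContinuousOn (fun z => ‖g z‖) (closedBall (0 : ℂ) r) :=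
    (hg.1.continuousOn.mono (Pool.Agent.KRC.Bas.closedBall_sub hr1)).norm
  obtain ⟨z₀, hz₀, hmax⟩ := (isCompact_closedBall (0 : ℂ) r).exists_isMaxOn
    ⟨0, mem_closedBall_self hr0.le⟩ hcont
  have hmax' : ∀ z : ℂ, ‖z‖ ≤ r → ‖g z‖ ≤ ‖g z₀‖ := fun z hz =>
    hmax (mem_closedBall_zero_iff.2 hz)
  have hμ : 0 < ‖g z₀‖ := by
    rcases (norm_nonneg (g z₀)).eq_or_lt with h0 | h0
    · exfalso
      have h1 : ∀ z ∈ ball (0 : ℂ) 1, g z = 0 := by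
        refine ident hg.1 isOpen_ball (ball_subset_ball hr1.le) ⟨0, mem_ball_self hr0⟩ ?_
        intro z hz
        have := hmax' z (mem_ball_zero_iff.1 hz).le
        rw [← h0] at this
        exact norm_le_zero_iff.1 this
      obtain ⟨z, hz⟩ := An_nonempty hc0 hc1
      have := hle z hz.1 hz.2
      rw [h1 z (Pool.Agent.KRC.Bas.An_sub c hz), norm_zero] at this
      exact hf0 z hz.2 (norm_le_zero_iff.1 this)
    · exact h0
  refine ⟨fun z => f z / (‖g z₀‖ : ℝ), fun z => g z / (‖g z₀‖ : ℝ), berg_div hμ hf, berg_div hμ hg,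
    ?_, ?_, ?_, ?_, z₀, mem_closedBall_zero_iff.1 hz₀, ?_⟩
  · intro z hz
    exact div_ne_zero (hf0 z hz) (by exact_mod_cast hμ.ne')
  · intro z hz
    rw [norm_div, norm_div]
    exact div_le_div_of_nonneg_right (hle z hz.1 hz.2) (norm_nonneg _)
  · rw [nrm_div hq hμ, nrm_div hq hμ]
    exact div_lt_div_of_pos_right hn hμ
  · intro z hz
    rw [norm_div, norm_real, Real.norm_of_nonneg hμ.le, div_le_one hμ]
    exact hmax' z hz
  · rw [norm_div, norm_real, Real.norm_of_nonneg hμ.le, div_self hμ.ne']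

/-- a bad pair has a point with `‖g z‖ < ‖f z‖` -/
theorem pt {q : ℝ} (hq : 0 < q) {f g : ℂ → ℂ} (hf : Berg q f) (hg : Berg q g)
    (hn : nrm q g < nrm q f) : ∃ z : ℂ, ‖z‖ < 1 ∧ ‖g z‖ < ‖f z‖ := by
  by_contra hcon
  push Not at hcon
  refine absurd hn (not_lt.2 ?_)
  unfold nrm
  refine Real.rpow_le_rpow (integral_nonneg fun z => by positivity) ?_ (by positivity)
  refine setIntegral_mono_on hf.2 hg.2 measurableSet_ball fun z hz => ?_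
  exact Real.rpow_le_rpow (norm_nonneg _) (hcon z (mem_ball_zero_iff.1 hz)) hq.le

/-- the limit `F` is not identically zero -/
theorem ne0 {q : ℝ} (hq : 0 < q) {F G : ℂ → ℂ} (hG : DifferentiableOn ℂ G (ball 0 1))
    (hz : ∃ z ∈ ball (0 : ℂ) 1, G z ≠ 0) (hint : IntegrableOn (Dp q F G) (ball 0 1))
    (hneg : ∫ z in ball (0 : ℂ) 1, Dp q F G z ≤ 0) : ∃ z : ℂ, ‖z‖ < 1 ∧ F z ≠ 0 := by
  by_contra hcon
  push Not at hcon
  have h1 : ∀ z ∈ ball (0 : ℂ) 1, Dp q F G z = ‖G z‖ ^ q := by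
    intro z hz
    unfold Dp
    rw [hcon z (mem_ball_zero_iff.1 hz), norm_zero, Real.zero_rpow hq.ne', sub_zero]
  have h2 : 0 ≤ᵐ[volume.restrict (ball (0 : ℂ) 1)] Dp q F G := by
    filter_upwards [ae_restrict_mem measurableSet_ball] with z hz
    rw [h1 z hz]
    exact Real.rpow_nonneg (norm_nonneg _) _
  have h3 : ∫ z in ball (0 : ℂ) 1, Dp q F G z = 0 :=
    le_antisymm hneg (integral_nonneg_of_ae h2)
  have h4 := (integral_eq_zero_iff_of_nonneg_ae h2 hint).1 h3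
  have h5 := Pool.Agent.KRC.Bas.ae_ne hG hz (subset_refl (ball (0 : ℂ) 1))
  have h6 : ∀ᵐ z ∂(volume.restrict (ball (0 : ℂ) 1)), False := by
    filter_upwards [h4, h5, ae_restrict_mem measurableSet_ball] with z hz4 hz5 hz6
    rw [Pi.zero_apply, h1 z hz6] at hz4
    exact (Real.rpow_pos_of_pos (norm_pos_iff.2 hz5) q).ne' hz4
  have h7 : (ae (volume.restrict (ball (0 : ℂ) 1))).NeBot :=
    ae_restrict_neBot.2 (measure_ball_pos volume (0 : ℂ) one_pos).ne'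
  exact h6.exists.choose_spec

end EX0Aux

open EX0Aux in
theorem ex0 (hN : S_NZ) (hB : S_BD0) (hL : S_LM0) (hH : S_HUR) (hM : S_MON) : S_EX0 := by
  intro q c cn hq hc0 hc1 hcn0 hcn1 tc hK
  -- the bound for `cn`
  obtain ⟨c₂, hc₂⟩ := tc.isCompact_insert_range.exists_isGreatest (insert_nonempty _ _)
  have hcc₂ : c ≤ c₂ := hc₂.2 (mem_insert _ _)
  have hcnc₂ : ∀ n, cn n ≤ c₂ := fun n => hc₂.2 (mem_insert_of_mem _ (mem_range_self n))
  have hc₂1 : c₂ < 1 := by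
    rcases hc₂.1 with h | ⟨n, h⟩
    · rw [h]; exact hc1
    · rw [← h]; exact hcn1 n
  have hc₂0 : 0 ≤ c₂ := hc0.trans hcc₂
  set r₁ : ℝ := (1 + c₂) / 2 with hr₁
  have hr1 : r₁ < 1 := by linarith
  have hr2 : c₂ < r₁ := by linarith
  have hr0 : 0 < r₁ := by linarith
  obtain ⟨C, hC⟩ := hB c₂ r₁ q hc₂0 hr2 hr1 hq
  obtain ⟨η, hη0, hη1, hη⟩ := hN c₂ r₁ r₁ hc₂0 hr2 le_rfl hr1
  choose f g hf hg hf0 hle hn hg1 hgz using fun n =>
    one hq (hcn0 n) (hcn1 n) hr0 hr1 (hK n)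
  have hCn := fun n => hC (cn n) (f n) (g n) (hcn0 n) (hcnc₂ n) (hf n) (hg n) (hf0 n) (hle n)
    (hn n) (hg1 n)
  obtain ⟨φ₁, G, hφ₁, hG, hGu⟩ := hM g (fun n => (hg n).1) (fun r hr =>
    ⟨C r, fun n z hz => (hCn n r hr z hz).2⟩)
  obtain ⟨φ₂, F, hφ₂, hF, hFu⟩ := hM (fun n => f (φ₁ n)) (fun n => (hf _).1) (fun r hr =>
    ⟨C r, fun n z hz => (hCn _ r hr z hz).1⟩)
  set φ : ℕ → ℕ := fun n => φ₁ (φ₂ n) with hφdef
  have hφ : StrictMono φ := hφ₁.comp hφ₂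
  have hφt : Tendsto φ atTop atTop := hφ.tendsto_atTop
  have hug : ∀ r : ℝ, r < 1 → TendstoUniformlyOn (fun n => g (φ n)) G atTop (closedBall 0 r) := by
    intro r hr v hv
    exact hφ₂.tendsto_atTop.eventually (hGu r hr v hv)
  obtain ⟨h1, h2, h3⟩ := hL c q (fun n => cn (φ n)) (fun n => f (φ n)) (fun n => g (φ n)) F G
    hc0 hc1 hq (fun n => hcn0 _) (fun n => hcn1 _) (tc.comp hφt) (fun n => hf _) (fun n => hg _)
    (fun n => hle _) (fun n => (hn _).le) hF hG hFu hug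
  -- a point of the circle with `G z ≠ 0`
  have hG0 : ∃ z : ℂ, ‖z‖ = r₁ ∧ G z ≠ 0 := by
    by_contra hcon
    push Not at hcon
    have h4 : ∀ z ∈ closedBall (0 : ℂ) r₁, ‖G z‖ ≤ 0 := by
      intro z hz
      refine Complex.norm_le_of_forall_mem_frontier_norm_le (U := ball (0 : ℂ) r₁)
        isBounded_ball ?_ ?_ (by rwa [closure_ball _ hr0.ne'])
      · refine DifferentiableOn.diffContOnCl ?_
        rw [closure_ball _ hr0.ne']
        exact hG.mono (Pool.Agent.KRC.Bas.closedBall_sub hr1)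
      · intro w hw
        rw [frontier_ball _ hr0.ne', mem_sphere_zero_iff_norm] at hw
        rw [hcon w hw, norm_zero]
    obtain ⟨n, hn'⟩ := (Metric.tendstoUniformlyOn_iff.1 (hug r₁ hr1) 1 one_pos).exists
    obtain ⟨z, hz, hz1⟩ := hgz (φ n)
    have h5 := hn' z (mem_closedBall_zero_iff.2 hz)
    rw [norm_le_zero_iff.1 (h4 z (mem_closedBall_zero_iff.2 hz)), dist_zero_left, hz1] at h5
    exact lt_irrefl _ h5
  obtain ⟨z₁, hz₁, hGz₁⟩ := hG0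
  have hz₁1 : ‖z₁‖ < 1 := by rw [hz₁]; exact hr1
  have hz₁c : z₁ ∈ closedBall (0 : ℂ) r₁ := mem_closedBall_zero_iff.2 hz₁.le
  have h6 : ‖F z₁‖ ≤ (1 - η) * ‖G z₁‖ := by
    refine le_of_tendsto_of_tendsto' ((hFu r₁ hr1).tendsto_at hz₁c).norm
      (((hug r₁ hr1).tendsto_at hz₁c).norm.const_mul (1 - η)) fun n => ?_
    exact hη (cn (φ n)) (f (φ n)) (g (φ n)) (hcn0 _) (hcnc₂ _) (hf _).1 (hg _).1 (hf0 _) (hle _)
      (pt hq (hf _) (hg _) (hn _)) z₁ hz₁.ge hz₁.le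
  have h7 : ‖F z₁‖ < ‖G z₁‖ := by
    have := norm_pos_iff.2 hGz₁
    nlinarith
  have h8 : ∃ z : ℂ, ‖z‖ < 1 ∧ F z ≠ 0 :=
    ne0 hq hG ⟨z₁, mem_ball_zero_iff.2 hz₁1, hGz₁⟩ h2 h3
  refine ⟨F, G, ⟨hF, hG, h1, ⟨z₁, ⟨?_, hz₁1⟩, h7⟩, h2, h3⟩, ?_⟩
  · rw [hz₁]; exact hcc₂.trans_lt hr2
  · exact hH (fun n => f (φ n)) F (fun n => (hf _).1) (fun n => hf0 _) hF hFu h8

end Pool.Agent.KRD
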