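import Pool.Agent.KRD.Stmts

/-!
# The Korenblum constant for zero-free functions: conclusion
-/

set_option autoImplicit false

namespace Pool.Agent.KRD

open Complex MeasureTheory Set Filter Topology Metric
open Pool.Agent.KRB (Berg nrm)

namespace FINAux

theorem le_kap0 {q c : ℝ} (h0 : 0 < c) (h1 : c < 1) (h : KP0 q c) : c ≤ kap0 q :=
  le_csSup ⟨1, fun _ hx => hx.2.1.le⟩ ⟨h0, h1, h⟩

theorem tends (κ : ℝ) :
    Tendsto (fun n : ℕ => κ + (1 - κ) / ((n : ℝ) + 2)) atTop (𝓝 κ) := by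
  have h1 : Tendsto (fun n : ℕ => (n : ℝ) + 2) atTop atTop :=
    tendsto_atTop_add_const_right _ _ tendsto_natCast_atTop_atTop
  have h2 : Tendsto (fun n : ℕ => (1 - κ) / ((n : ℝ) + 2)) atTop (𝓝 0) :=
    h1.const_div_atTop (1 - κ)
  have h3 := h2.const_add κ
  rwa [add_zero] at h3

theorem lt_of_lt (hE : S_EX0) (hK : S_KG0) (hS : S_ST0) (p q : ℝ) (hp : 0 < p) (hpq : p < q) :
    kap0 p < kap0 q := by
  by_contra hcon
  rw [not_lt] at hcon
  obtain ⟨h0, h1, hKP⟩ := hK p hp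
  have hpos : ∀ n : ℕ, 0 < (1 - kap0 p) / ((n : ℝ) + 2) := fun n => by
    have h2 : (0 : ℝ) ≤ n := Nat.cast_nonneg n
    exact div_pos (by linarith) (by linarith)
  have hlt : ∀ n : ℕ, kap0 p + (1 - kap0 p) / ((n : ℝ) + 2) < 1 := fun n => by
    have h2 : (0 : ℝ) ≤ n := Nat.cast_nonneg n
    have h3 : (1 - kap0 p) / ((n : ℝ) + 2) < 1 - kap0 p := by
      rw [div_lt_iff₀ (by linarith)]
      nlinarith
    linarith
  obtain ⟨f, g, hL, hf⟩ := hE q (kap0 p)
    (fun n : ℕ => kap0 p + (1 - kap0 p) / ((n : ℝ) + 2)) (hp.trans hpq) h0 h1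
    (fun n => by have := hpos n; linarith) hlt (tends _) (fun n hn => by
      have h2 := le_kap0 (by have := hpos n; linarith) (hlt n) hn
      have h3 := hpos n
      linarith)
  obtain ⟨z, hz1, hz2⟩ := hS p q (kap0 p) hp hpq h0 h1 hKP f g hL
  exact hf z hz1 hz2

end FINAux

/-- **Conclusion.** -/
theorem fin (hE : S_EX0) (hK : S_KG0) (hS : S_ST0) : S_FIN := by
  refine ⟨fun p hp q _ hpq => FINAux.lt_of_lt hE hK hS p q hp hpq, fun q hq => ?_⟩
  have hq' : (0 : ℝ) < q := hq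
  exact ⟨(hK (q / 2) (by linarith)).1.trans_lt
    (FINAux.lt_of_lt hE hK hS (q / 2) q (by linarith) (by linarith)), (hK q hq').2.1⟩

end Pool.Agent.KRD
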