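import Pool.Agent.KRD.Stmts

/-!
# The Korenblum constant for zero-free functions: Hurwitz
-/

set_option autoImplicit false

namespace Pool.Agent.KRD

open Complex MeasureTheory Set Filter Topology Metric

theorem hur : S_HUR := by
  intro fn f hfn hne hf hun hex z₁ hz₁ h0
  have hA : AnalyticOnNhd ℂ f (ball 0 1) := hf.analyticOnNhd isOpen_ball
  have hz₁b : z₁ ∈ ball (0 : ℂ) 1 := mem_ball_zero_iff.2 hz₁
  -- isolated zero
  have hiso : ∀ᶠ w in 𝓝[≠] z₁, f w ≠ 0 := by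
    by_contra hcon
    have h3 : ∃ᶠ w in 𝓝[≠] z₁, f w = 0 := by
      intro h4
      exact hcon (h4.mono fun w hw => hw)
    have h4 := hA.eqOn_zero_of_preconnected_of_frequently_eq_zero
      (convex_ball (0 : ℂ) 1).isPreconnected hz₁b h3
    obtain ⟨w, hw, hw0⟩ := hex
    exact hw0 (h4 (mem_ball_zero_iff.2 hw))
  rw [eventually_nhdsWithin_iff, Metric.eventually_nhds_iff] at hiso
  obtain ⟨ε, hε, hball⟩ := hiso
  set ρ : ℝ := min (ε / 2) ((1 - ‖z₁‖) / 2) with hρ
  have hρ0 : 0 < ρ := by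
    rw [hρ]
    exact lt_min (by linarith) (by linarith)
  have hρε : ρ < ε := (min_le_left _ _).trans_lt (by linarith)
  have hρ1 : ‖z₁‖ + ρ < 1 := by
    have : ρ ≤ (1 - ‖z₁‖) / 2 := min_le_right _ _
    linarith
  have hsub : closedBall z₁ ρ ⊆ closedBall (0 : ℂ) (‖z₁‖ + ρ) := by
    intro w hw
    rw [mem_closedBall_zero_iff]
    rw [mem_closedBall, dist_eq_norm] at hw
    calc ‖w‖ = ‖z₁ + (w - z₁)‖ := by congr 1; ring
      _ ≤ ‖z₁‖ + ‖w - z₁‖ := norm_add_le _ _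
      _ ≤ ‖z₁‖ + ρ := by linarith
  have hsub1 : closedBall z₁ ρ ⊆ ball (0 : ℂ) 1 :=
    hsub.trans (closedBall_subset_ball hρ1)
  -- the minimum on the circle
  have hsc : IsCompact (sphere z₁ ρ) := isCompact_sphere _ _
  have hsn : (sphere z₁ ρ).Nonempty := NormedSpace.sphere_nonempty.2 hρ0.le
  obtain ⟨w₀, hw₀, hmin⟩ := hsc.exists_isMinOn hsn
    ((hf.continuousOn.mono (sphere_subset_closedBall.trans hsub1)).norm)
  set m : ℝ := ‖f w₀‖ with hm
  have hm0 : 0 < m := by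
    rw [hm]
    apply norm_pos_iff.2
    have h1 : dist w₀ z₁ = ρ := hw₀
    refine hball (by rw [h1]; exact hρε) ?_
    intro h2
    rw [mem_singleton_iff] at h2
    rw [h2, dist_self] at h1
    exact hρ0.ne h1
  have hmin' : ∀ w ∈ sphere z₁ ρ, m ≤ ‖f w‖ := fun w hw => hmin hw
  obtain ⟨n, hn⟩ := ((Metric.tendstoUniformlyOn_iff.1 (hun _ hρ1)) (m / 2)
    (by positivity)).exists
  have hlow : ∀ w ∈ sphere z₁ ρ, m / 2 ≤ ‖fn n w‖ := by
    intro w hw
    have h1 := hn w (hsub (sphere_subset_closedBall hw))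
    have h2 := hmin' w hw
    rw [dist_eq_norm] at h1
    have h3 : ‖f w‖ ≤ ‖f w - fn n w‖ + ‖fn n w‖ := by
      calc ‖f w‖ = ‖(f w - fn n w) + fn n w‖ := by congr 1; ring
        _ ≤ _ := norm_add_le _ _
    linarith
  have hd : DiffContOnCl ℂ (fun w => (fn n w)⁻¹) (ball z₁ ρ) := by
    apply DifferentiableOn.diffContOnCl
    rw [closure_ball _ hρ0.ne']
    exact ((hfn n).mono hsub1).inv fun w hw => hne n w (mem_ball_zero_iff.1 (hsub1 hw))
  have hbd := Complex.norm_le_of_forall_mem_frontier_norm_le (C := (m / 2)⁻¹) isBounded_ball hd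
    (fun w hw => by
      rw [frontier_ball _ hρ0.ne'] at hw
      rw [norm_inv]
      exact inv_anti₀ (by positivity) (hlow w hw))
    (subset_closure (mem_ball_self hρ0))
  rw [norm_inv] at hbd
  have hpos : 0 < ‖fn n z₁‖ := norm_pos_iff.2 (hne n z₁ hz₁)
  have h5 : m / 2 ≤ ‖fn n z₁‖ := (inv_le_inv₀ hpos (by positivity)).1 hbd
  have h6 := hn z₁ (hsub (mem_closedBall_self hρ0.le))
  rw [dist_eq_norm, h0, zero_sub, norm_neg] at h6
  linarith

end Pool.Agent.KRD
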