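import Pool.Agent.KRD.Stmts
import Pool.Agent.KRC.Kgd

/-!
# Module KG0: the constant itself is good
-/

set_option autoImplicit false

namespace Pool.Agent.KRD

open Complex MeasureTheory Set Filter Topology Metric
open Pool.Agent.KRB (Berg nrm)
open Pool.Agent.KRC (An Dp LimA S_HAR S_MON S_HOP S_EXT)

namespace KG0Aux

open Pool.Agent.KRC.KGDAux

theorem mono {p c c' : ℝ} (h : KP0 p c') (hc : c ≤ c') : KP0 p c :=
  fun f g hf hg h0 hfg => h f g hf hg h0 (fun z h1 h2 => hfg z (lt_of_le_of_lt hc h1) h2)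

/-- the bound of the constant function and the identity -/
theorem le_const {p c : ℝ} (hp0 : 0 < p) (hc0 : 0 < c) (hc1 : c < 1) (h : KP0 p c) :
    c ≤ (2 / (p + 2)) ^ (1 / p) := by
  have hf : Berg p (fun _ => (c : ℂ)) :=
    Pool.Agent.KRB.UPAux.berg hp0 (differentiableOn_const _) (fun z _ => by
      rw [norm_real, Real.norm_of_nonneg hc0.le]; exact hc1.le)
  have hg : Berg p (fun z : ℂ => z) :=
    Pool.Agent.KRB.UPAux.berg hp0 differentiableOn_id (fun z hz => hz.le)
  have h1 := h _ _ hf hg (fun z _ => by exact_mod_cast hc0.ne') (fun z h1 _ => by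
    rw [norm_real, Real.norm_of_nonneg hc0.le]; exact h1.le)
  unfold nrm at h1
  rw [Pool.Agent.KRB.rad.2.2 p hp0] at h1
  have h2 : ∫ _z in ball (0 : ℂ) 1, ‖(c : ℂ)‖ ^ p = Real.pi * c ^ p := by
    rw [setIntegral_const, smul_eq_mul, Measure.real, Complex.volume_ball, ENNReal.toReal_mul,
      norm_real, Real.norm_of_nonneg hc0.le]
    simp
  have hcp : 0 ≤ c ^ p := Real.rpow_nonneg hc0.le _
  have hpi := Real.pi_pos
  rw [h2, Real.rpow_le_rpow_iff (by positivity) (by positivity) (by positivity)] at h1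
  have h3 : c ^ p ≤ 2 / (p + 2) := by
    rw [le_div_iff₀ (by linarith)]
    rw [le_div_iff₀ (by linarith)] at h1
    have h4 : Real.pi * (c ^ p * (p + 2)) ≤ Real.pi * 2 := by linarith
    exact le_of_mul_le_mul_left h4 Real.pi_pos
  have h4 : c = (c ^ p) ^ (1 / p) := by
    rw [← Real.rpow_mul hc0.le, mul_one_div_cancel hp0.ne', Real.rpow_one]
  rw [h4]
  exact Real.rpow_le_rpow hcp h3 (by positivity)

theorem const_lt {p : ℝ} (hp0 : 0 < p) : (2 / (p + 2)) ^ (1 / p) < 1 := by
  apply Real.rpow_lt_one (by positivity) _ (by positivity)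
  rw [div_lt_one (by linarith)]
  linarith

end KG0Aux

open KG0Aux Pool.Agent.KRC.KGDAux in
theorem kg0 (hE : S_EXT) : S_KG0 := by
  intro p hp0
  have hk0 : 0 ≤ kap0 p := Real.sSup_nonneg fun _ hc => hc.1.le
  have hk1 : kap0 p < 1 := by
    refine lt_of_le_of_lt (Real.sSup_le (fun c hc => le_const hp0 hc.1 hc.2.1 hc.2.2) ?_)
      (const_lt hp0)
    positivity
  refine ⟨hk0, hk1, ?_⟩
  intro f g hf hg hf0 hfg
  rcases eq_or_lt_of_le hk0 with h0 | hpos
  · apply nrm_mono hp0 hf hg
    intro z hz hz1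
    apply hfg z _ hz1
    rw [← h0]
    exact norm_pos_iff.2 hz
  by_cases hg0 : ∃ z ∈ ball (0 : ℂ) 1, g z ≠ 0
  · obtain ⟨C, δ, hC, hδ, hδk, hext⟩ := hE (kap0 p) f g hpos hk1 hf.1 hg.1 hg0
      (fun z hz => hfg z hz.1 hz.2)
    have key : ∀ c ∈ Ioo (kap0 p - δ) (kap0 p), nrm p f ≤ (1 + C * (kap0 p - c)) * nrm p g := by
      intro c hc
      have hc0 : 0 < c := by linarith [hc.1]
      have hKP : KP0 p c := by
        have hne : {c : ℝ | 0 < c ∧ c < 1 ∧ KP0 p c}.Nonempty := by
          by_contra hcon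
          rw [Set.not_nonempty_iff_eq_empty] at hcon
          have h1 : kap0 p = 0 := by
            unfold kap0
            rw [hcon, Real.sSup_empty]
          linarith
        obtain ⟨c', hc', hcc'⟩ := exists_lt_of_lt_csSup hne hc.2
        exact mono hc'.2.2 hcc'.le
      have hM : 0 < 1 + C * (kap0 p - c) := by
        have : 0 ≤ C * (kap0 p - c) := mul_nonneg hC (by linarith [hc.2])
        linarith
      have h2 := hKP (fun z => f z / ((1 + C * (kap0 p - c) : ℝ) : ℂ)) g (berg_div hM hf) hg (by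
        intro z hz
        exact div_ne_zero (hf0 z hz) (by exact_mod_cast hM.ne')) (by
        intro z hz hz1
        rw [norm_div, Complex.norm_real, Real.norm_of_nonneg hM.le, div_le_iff₀ hM]
        rcases le_or_gt ‖z‖ (kap0 p) with h3 | h3
        · have h4 := hext z (by linarith [hc.1]) h3
          have h5 : (1 + C * (kap0 p - ‖z‖)) * ‖g z‖ ≤ (1 + C * (kap0 p - c)) * ‖g z‖ := by
            apply mul_le_mul_of_nonneg_right _ (norm_nonneg _)
            have : C * (kap0 p - ‖z‖) ≤ C * (kap0 p - c) :=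
              mul_le_mul_of_nonneg_left (by linarith) hC
            linarith
          linarith
        · have h4 := hfg z h3 hz1
          have h5 : 0 ≤ C * (kap0 p - c) * ‖g z‖ :=
            mul_nonneg (mul_nonneg hC (by linarith [hc.2])) (norm_nonneg _)
          linarith)
      rw [nrm_div hp0 hM, div_le_iff₀ hM] at h2
      linarith
    have hlim : Tendsto (fun c : ℝ => (1 + C * (kap0 p - c)) * nrm p g) (𝓝[<] (kap0 p))
        (𝓝 (nrm p g)) := by
      have h1 : Tendsto (fun c : ℝ => (1 + C * (kap0 p - c)) * nrm p g) (𝓝 (kap0 p))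
          (𝓝 ((1 + C * (kap0 p - kap0 p)) * nrm p g)) := by
        apply Continuous.tendsto
        fun_prop
      rw [sub_self, mul_zero, add_zero, one_mul] at h1
      exact h1.mono_left nhdsWithin_le_nhds
    apply ge_of_tendsto hlim
    filter_upwards [Ioo_mem_nhdsLT (show kap0 p - δ < kap0 p by linarith)] with c hc
    exact key c hc
  · push Not at hg0
    have hz₀ : (((kap0 p + 1) / 2 : ℝ) : ℂ) ∈ An (kap0 p) := by
      constructor
      · rw [Complex.norm_real, Real.norm_of_nonneg (by linarith)]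
        linarith
      · rw [Complex.norm_real, Real.norm_of_nonneg (by linarith)]
        linarith
    exfalso
    refine hf0 _ hz₀.2 ?_
    have h2 := hfg _ hz₀.1 hz₀.2
    rw [hg0 _ (by simpa using hz₀.2), norm_zero] at h2
    exact norm_le_zero_iff.1 h2

end Pool.Agent.KRD
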