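import Pool.Agent.KRD.Stmts

/-!
# The Korenblum constant for zero-free functions: limits of bad pairs
-/

set_option autoImplicit false

namespace Pool.Agent.KRD

open Complex MeasureTheory Set Filter Topology Metric
open Pool.Agent.KRB (Berg nrm)
open Pool.Agent.KRC

namespace LM0Aux

/-- a convergent sequence of pairs -/
structure Cv (c q : ℝ) (cn : ℕ → ℝ) (fn gn : ℕ → ℂ → ℂ) (f g : ℂ → ℂ) : Prop where
  hc0 : 0 ≤ c
  hc1 : c < 1
  hq : 0 < q
  hcn0 : ∀ n, 0 ≤ cn n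
  hcn1 : ∀ n, cn n < 1
  tc : Tendsto cn atTop (𝓝 c)
  bf : ∀ n, Berg q (fn n)
  bg : ∀ n, Berg q (gn n)
  adm : ∀ n, ∀ z ∈ An (cn n), ‖fn n z‖ ≤ ‖gn n z‖
  hn : ∀ n, nrm q (gn n) ≤ nrm q (fn n)
  df : DifferentiableOn ℂ f (ball 0 1)
  dg : DifferentiableOn ℂ g (ball 0 1)
  uf : ∀ r : ℝ, r < 1 → TendstoUniformlyOn fn f atTop (closedBall 0 r)
  ug : ∀ r : ℝ, r < 1 → TendstoUniformlyOn gn g atTop (closedBall 0 r)

/-- the integrands -/
noncomputable def Fn (q : ℝ) (fn gn : ℕ → ℂ → ℂ) (n : ℕ) (z : ℂ) : ℝ :=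
  ‖gn n z‖ ^ q - ‖fn n z‖ ^ q

/-- the inequality for one pair -/
theorem bad {q c : ℝ} (hq : 0 < q) (hc1 : c < 1) {f g : ℂ → ℂ} (hf : Berg q f)
    (hg : Berg q g) (hle : ∀ z ∈ An c, ‖f z‖ ≤ ‖g z‖) (hn : nrm q g ≤ nrm q f)
    {a b : ℝ} (ha : c ≤ a) (hb : b < 1) :
    ∫ z in {z : ℂ | a < ‖z‖ ∧ ‖z‖ < b}, (‖g z‖ ^ q - ‖f z‖ ^ q) ≤
      -∫ z in closedBall (0 : ℂ) c, (‖g z‖ ^ q - ‖f z‖ ^ q) := by
  have hsub : {z : ℂ | a < ‖z‖ ∧ ‖z‖ < b} ⊆ An c := fun z hz =>
    ⟨ha.trans_lt hz.1, hz.2.trans hb⟩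
  have hm2 : MeasurableSet (An c) := (Bas.isOpen_An c).measurableSet
  have hint : IntegrableOn (fun z => ‖g z‖ ^ q - ‖f z‖ ^ q) (ball (0 : ℂ) 1) := hg.2.sub hf.2
  have hneg : ∫ z in ball (0 : ℂ) 1, (‖g z‖ ^ q - ‖f z‖ ^ q) ≤ 0 := by
    rw [integral_sub hg.2 hf.2]
    unfold nrm at hn
    have := (Real.rpow_le_rpow_iff (integral_nonneg fun z => by positivity)
      (integral_nonneg fun z => by positivity) (by positivity : 0 < 1 / q)).1 hn
    linarith
  have hun : ball (0 : ℂ) 1 = closedBall 0 c ∪ An c := by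
    ext z
    simp only [mem_ball_zero_iff, mem_union, mem_closedBall_zero_iff, An, mem_ofPred_eq]
    constructor
    · intro h
      rcases le_or_gt ‖z‖ c with h1 | h1
      · exact Or.inl h1
      · exact Or.inr ⟨h1, h⟩
    · rintro (h | h)
      · exact h.trans_lt hc1
      · exact h.2
  have hdisj : Disjoint (closedBall (0 : ℂ) c) (An c) := by
    rw [Set.disjoint_left]
    intro z h1 h2
    exact absurd (mem_closedBall_zero_iff.1 h1) (not_le.2 h2.1)
  have h4 : ∫ z in ball (0 : ℂ) 1, (‖g z‖ ^ q - ‖f z‖ ^ q) =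
      (∫ z in closedBall (0 : ℂ) c, (‖g z‖ ^ q - ‖f z‖ ^ q)) +
        ∫ z in An c, (‖g z‖ ^ q - ‖f z‖ ^ q) := by
    rw [hun]
    exact setIntegral_union hdisj hm2 (hint.mono_set (Bas.closedBall_sub hc1))
      (hint.mono_set (Bas.An_sub c))
  have h5 : ∫ z in {z : ℂ | a < ‖z‖ ∧ ‖z‖ < b}, (‖g z‖ ^ q - ‖f z‖ ^ q) ≤
      ∫ z in An c, (‖g z‖ ^ q - ‖f z‖ ^ q) := by
    refine setIntegral_mono_set (hint.mono_set (Bas.An_sub c)) ?_ hsub.eventuallyLE
    filter_upwards [ae_restrict_mem hm2] with z hz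
    have := Real.rpow_le_rpow (norm_nonneg _) (hle z hz) hq.le
    simp only [Pi.zero_apply, sub_nonneg]
    exact this
  linarith

section

variable {c q : ℝ} {cn : ℕ → ℝ} {fn gn : ℕ → ℂ → ℂ} {f g : ℂ → ℂ}

theorem tend_g (H : Cv c q cn fn gn f g) {z : ℂ} (hz : ‖z‖ < 1) :
    Tendsto (fun n => gn n z) atTop (𝓝 (g z)) :=
  (H.ug ‖z‖ hz).tendsto_at (mem_closedBall_zero_iff.2 le_rfl)

theorem tend_f (H : Cv c q cn fn gn f g) {z : ℂ} (hz : ‖z‖ < 1) :
    Tendsto (fun n => fn n z) atTop (𝓝 (f z)) :=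
  (H.uf ‖z‖ hz).tendsto_at (mem_closedBall_zero_iff.2 le_rfl)

theorem tend_F (H : Cv c q cn fn gn f g) {z : ℂ} (hz : ‖z‖ < 1) :
    Tendsto (fun n => Fn q fn gn n z) atTop (𝓝 (Dp q f g z)) :=
  ((tend_g H hz).norm.rpow tendsto_const_nhds (Or.inr H.hq)).sub
    ((tend_f H hz).norm.rpow tendsto_const_nhds (Or.inr H.hq))

/-- a uniform bound on smaller discs -/
theorem bound (H : Cv c q cn fn gn f g) {r : ℝ} (hr : r < 1) :
    ∃ M : ℝ, 0 ≤ M ∧ ∀ᶠ n in atTop, ∀ z : ℂ, ‖z‖ ≤ r → |Fn q fn gn n z| ≤ M := by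
  obtain ⟨M1, hM1, h1⟩ := Bas.bdd H.dg.continuousOn hr
  obtain ⟨M2, hM2, h2⟩ := Bas.bdd H.df.continuousOn hr
  have u1 := Metric.tendstoUniformlyOn_iff.1 (H.ug r hr) 1 one_pos
  have u2 := Metric.tendstoUniformlyOn_iff.1 (H.uf r hr) 1 one_pos
  have hq := H.hq
  refine ⟨(M1 + 1) ^ q + (M2 + 1) ^ q, by positivity, ?_⟩
  filter_upwards [u1, u2] with n v1 v2 z hz
  have hz' : z ∈ closedBall (0 : ℂ) r := mem_closedBall_zero_iff.2 hz
  have w1 : ‖gn n z‖ ≤ M1 + 1 := by
    have h3 := v1 z hz'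
    rw [dist_eq_norm] at h3
    have h4 : ‖gn n z‖ ≤ ‖g z‖ + ‖g z - gn n z‖ := by
      calc ‖gn n z‖ = ‖g z - (g z - gn n z)‖ := by rw [sub_sub_cancel]
        _ ≤ _ := norm_sub_le _ _
    linarith [h1 z hz]
  have w2 : ‖fn n z‖ ≤ M2 + 1 := by
    have h3 := v2 z hz'
    rw [dist_eq_norm] at h3
    have h4 : ‖fn n z‖ ≤ ‖f z‖ + ‖f z - fn n z‖ := by
      calc ‖fn n z‖ = ‖f z - (f z - fn n z)‖ := by rw [sub_sub_cancel]
        _ ≤ _ := norm_sub_le _ _
    linarith [h2 z hz]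
  have a1 : 0 ≤ ‖gn n z‖ ^ q := by positivity
  have b1 : 0 ≤ ‖fn n z‖ ^ q := by positivity
  have a2 : ‖gn n z‖ ^ q ≤ (M1 + 1) ^ q := Real.rpow_le_rpow (norm_nonneg _) w1 hq.le
  have b2 : ‖fn n z‖ ^ q ≤ (M2 + 1) ^ q := Real.rpow_le_rpow (norm_nonneg _) w2 hq.le
  unfold Fn
  rw [abs_le]
  constructor <;> linarith

theorem F_cont (H : Cv c q cn fn gn f g) (n : ℕ) :
    ContinuousOn (Fn q fn gn n) (ball 0 1) :=
  (Bas.pow_cont (H.bg n).1.continuousOn H.hq.le).sub
    (Bas.pow_cont (H.bf n).1.continuousOn H.hq.le)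

/-- limits of integrals over sets in a smaller disc -/
theorem tend_left (H : Cv c q cn fn gn f g) {a b : ℝ} (hb : b < 1) :
    Tendsto (fun n => ∫ z in {z : ℂ | a < ‖z‖ ∧ ‖z‖ < b}, Fn q fn gn n z) atTop
      (𝓝 (∫ z in {z : ℂ | a < ‖z‖ ∧ ‖z‖ < b}, Dp q f g z)) := by
  obtain ⟨M, hM0, hM⟩ := bound H hb
  have hmeas : MeasurableSet {z : ℂ | a < ‖z‖ ∧ ‖z‖ < b} := (Bas.isOpen_annulus a b).measurableSet
  have hsub : {z : ℂ | a < ‖z‖ ∧ ‖z‖ < b} ⊆ closedBall (0 : ℂ) b :=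
    fun z hz => mem_closedBall_zero_iff.2 hz.2.le
  have hsub1 : {z : ℂ | a < ‖z‖ ∧ ‖z‖ < b} ⊆ ball (0 : ℂ) 1 := Bas.annulus_sub hb.le
  refine tendsto_integral_filter_of_dominated_convergence (fun _ => M) ?_ ?_ ?_ ?_
  · exact Eventually.of_forall fun n =>
      ((F_cont H n).mono hsub1).aestronglyMeasurable hmeas
  · filter_upwards [hM] with n hn
    filter_upwards [ae_restrict_mem hmeas] with z hz
    exact hn z hz.2.le
  · exact (integrableOn_const measure_closedBall_lt_top.ne).mono_set hsub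
  · filter_upwards [ae_restrict_mem hmeas] with z hz
    exact tend_F H (hz.2.trans hb)

theorem tend_right (H : Cv c q cn fn gn f g) :
    Tendsto (fun n => ∫ z in closedBall (0 : ℂ) (cn n), Fn q fn gn n z) atTop
      (𝓝 (∫ z in closedBall (0 : ℂ) c, Dp q f g z)) := by
  have hc1 := H.hc1
  set r : ℝ := (1 + c) / 2 with hr
  have hcr : c < r := by linarith
  have hr1 : r < 1 := by linarith
  obtain ⟨M, hM0, hM⟩ := bound H hr1
  have e1 : ∫ z in closedBall (0 : ℂ) c, Dp q f g z =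
      ∫ z in closedBall (0 : ℂ) r, (closedBall (0 : ℂ) c).indicator
        (Dp q f g) z := by
    rw [setIntegral_indicator measurableSet_closedBall,
      inter_eq_right.2 (closedBall_subset_closedBall hcr.le)]
  have e2 : ∀ᶠ n in atTop, ∫ z in closedBall (0 : ℂ) r, (closedBall (0 : ℂ) (cn n)).indicator
      (Fn q fn gn n) z = ∫ z in closedBall (0 : ℂ) (cn n), Fn q fn gn n z := by
    filter_upwards [H.tc.eventually (gt_mem_nhds hcr)] with n hn
    rw [setIntegral_indicator measurableSet_closedBall,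
      inter_eq_right.2 (closedBall_subset_closedBall hn.le)]
  rw [e1]
  refine Tendsto.congr' e2 ?_
  refine tendsto_integral_filter_of_dominated_convergence (fun _ => M) ?_ ?_ ?_ ?_
  · refine Eventually.of_forall fun n => ?_
    exact (((F_cont H n).mono (Bas.closedBall_sub hr1)).aestronglyMeasurable
      measurableSet_closedBall).indicator measurableSet_closedBall
  · filter_upwards [hM] with n hn
    filter_upwards [ae_restrict_mem measurableSet_closedBall] with z hz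
    refine (norm_indicator_le_norm_self _ _).trans ?_
    exact hn z (mem_closedBall_zero_iff.1 hz)
  · exact integrableOn_const measure_closedBall_lt_top.ne
  · have hs : volume (sphere (0 : ℂ) c) = 0 := Measure.addHaar_sphere _ _ _
    have hae : ∀ᵐ z ∂(volume.restrict (closedBall (0 : ℂ) r)), ‖z‖ ≠ c := by
      refine ae_restrict_of_ae ?_
      have hset : {z : ℂ | ¬ ‖z‖ ≠ c} = sphere (0 : ℂ) c := by
        ext z
        simp
      rw [ae_iff, hset]
      exact hs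
    filter_upwards [ae_restrict_mem measurableSet_closedBall, hae] with z hz hzc
    have hz1 : ‖z‖ < 1 := (mem_closedBall_zero_iff.1 hz).trans_lt hr1
    rcases lt_or_gt_of_ne hzc with h | h
    · rw [indicator_of_mem (mem_closedBall_zero_iff.2 h.le)]
      refine (tend_F H hz1).congr' ?_
      filter_upwards [H.tc.eventually (lt_mem_nhds h)] with n hn
      rw [indicator_of_mem (mem_closedBall_zero_iff.2 hn.le)]
    · rw [indicator_of_notMem (fun h' => absurd (mem_closedBall_zero_iff.1 h') (not_le.2 h))]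
      apply tendsto_const_nhds.congr'
      filter_upwards [H.tc.eventually (gt_mem_nhds h)] with n hn
      rw [indicator_of_notMem (fun h' => absurd (mem_closedBall_zero_iff.1 h') (not_le.2 hn))]

/-- the limit inequality -/
theorem limit_le (H : Cv c q cn fn gn f g) {a b : ℝ} (hca : c < a)
    (hb : b < 1) : ∫ z in {z : ℂ | a < ‖z‖ ∧ ‖z‖ < b}, Dp q f g z ≤
      -∫ z in closedBall (0 : ℂ) c, Dp q f g z := by
  refine le_of_tendsto_of_tendsto (tend_left H (a := a) hb) (tend_right H).neg ?_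
  filter_upwards [H.tc.eventually (gt_mem_nhds hca)] with n hn
  exact bad H.hq (H.hcn1 n) (H.bf n) (H.bg n) (H.adm n) (H.hn n) hn.le hb

theorem adm_lim (H : Cv c q cn fn gn f g) : ∀ z ∈ An c, ‖f z‖ ≤ ‖g z‖ := by
  intro z hz
  refine le_of_tendsto_of_tendsto (tend_f H hz.2).norm (tend_g H hz.2).norm ?_
  filter_upwards [H.tc.eventually (gt_mem_nhds hz.1)] with n hn
  exact H.adm n z ⟨hn, hz.2⟩

theorem union_eq (hc : c < 1) : ball (0 : ℂ) 1 = closedBall 0 c ∪ An c := by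
  ext z
  simp only [mem_ball_zero_iff, mem_union, mem_closedBall_zero_iff, An, mem_ofPred_eq]
  constructor
  · intro h
    rcases le_or_gt ‖z‖ c with h1 | h1
    · exact Or.inl h1
    · exact Or.inr ⟨h1, h⟩
  · rintro (h | h)
    · exact h.trans_lt hc
    · exact h.2

theorem disj : Disjoint (closedBall (0 : ℂ) c) (An c) := by
  rw [Set.disjoint_left]
  intro z h1 h2
  exact absurd (mem_closedBall_zero_iff.1 h1) (not_le.2 h2.1)

theorem main (H : Cv c q cn fn gn f g) :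
    IntegrableOn (Dp q f g) (ball 0 1) ∧
      ∫ z in ball (0 : ℂ) 1, Dp q f g z ≤ 0 := by
  have hc1 := H.hc1
  have hq : 0 ≤ q := H.hq.le
  set D := Dp q f g with hD
  have hDc : ContinuousOn D (ball 0 1) :=
    Bas.Dp_cont H.df.continuousOn H.dg.continuousOn hq
  set A : ℕ → Set ℂ := fun n => {z : ℂ | c + (1 - c) / (n + 3) < ‖z‖ ∧
    ‖z‖ < 1 - (1 - c) / (n + 3)} with hA
  have hpos : ∀ n : ℕ, 0 < (1 - c) / ((n : ℝ) + 3) := by
    intro n
    have : 0 < 1 - c := by linarith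
    positivity
  have hle : ∀ n : ℕ, c + (1 - c) / ((n : ℝ) + 3) ≤ 1 - (1 - c) / ((n : ℝ) + 3) := by
    intro n
    have h1 : (1 - c) / ((n : ℝ) + 3) ≤ (1 - c) / 2 := by
      apply div_le_div_of_nonneg_left (by linarith) (by norm_num)
      have : (0 : ℝ) ≤ n := Nat.cast_nonneg n
      linarith
    linarith
  have hlim : Tendsto (fun n : ℕ => (1 - c) / ((n : ℝ) + 3)) atTop (𝓝 0) :=
    tendsto_const_nhds.div_atTop
      (tendsto_atTop_add_const_right _ _ tendsto_natCast_atTop_atTop)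
  have hsub : ∀ n, A n ⊆ An c := fun n z hz =>
    ⟨by linarith [hz.1, hpos n], by linarith [hz.2, hpos n]⟩
  have hcov : AECover (volume.restrict (An c)) atTop A := by
    constructor
    · filter_upwards [ae_restrict_mem (Bas.isOpen_An c).measurableSet] with z hz
      have h1 : ∀ᶠ n : ℕ in atTop, (1 - c) / ((n : ℝ) + 3) < ‖z‖ - c :=
        hlim.eventually (gt_mem_nhds (by linarith [hz.1]))
      have h2 : ∀ᶠ n : ℕ in atTop, (1 - c) / ((n : ℝ) + 3) < 1 - ‖z‖ :=
        hlim.eventually (gt_mem_nhds (by linarith [hz.2]))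
      filter_upwards [h1, h2] with n h3 h4
      exact ⟨by linarith, by linarith⟩
    · intro n
      exact (Bas.isOpen_annulus _ _).measurableSet
  have hres : ∀ n, (volume.restrict (An c)).restrict (A n) = volume.restrict (A n) := by
    intro n
    rw [Measure.restrict_restrict (Bas.isOpen_annulus _ _).measurableSet,
      inter_eq_left.2 (hsub n)]
  have hb1 : ∀ n : ℕ, 1 - (1 - c) / ((n : ℝ) + 3) < 1 := fun n => by linarith [hpos n]
  have hI : Integrable D (volume.restrict (An c)) := by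
    refine hcov.integrable_of_integral_bounded_of_nonneg_ae
      (-∫ z in closedBall (0 : ℂ) c, D z) ?_ ?_ ?_
    · intro n
      rw [IntegrableOn, hres]
      have h1 : IntegrableOn D (closedBall 0 (1 - (1 - c) / ((n : ℝ) + 3))) :=
        Bas.intOn_of_cont hDc (hb1 n)
      exact h1.mono_set fun z hz => mem_closedBall_zero_iff.2 hz.2.le
    · filter_upwards [ae_restrict_mem (Bas.isOpen_An c).measurableSet] with z hz
      have h1 := Real.rpow_le_rpow (norm_nonneg _) (adm_lim H z hz) hq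
      simp only [hD, Dp]
      linarith
    · refine Eventually.of_forall fun n => ?_
      rw [hres]
      exact limit_le H (by linarith [hpos n]) (hb1 n)
  have hAn : ∫ z in An c, D z ≤ -∫ z in closedBall (0 : ℂ) c, D z := by
    refine le_of_tendsto (hcov.integral_tendsto_of_countably_generated hI) ?_
    refine Eventually.of_forall fun n => ?_
    rw [hres]
    exact limit_le H (by linarith [hpos n]) (hb1 n)
  have hcl : IntegrableOn D (closedBall 0 c) := Bas.intOn_of_cont hDc hc1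
  rw [union_eq hc1]
  refine ⟨hcl.union hI, ?_⟩
  rw [setIntegral_union disj (Bas.isOpen_An c).measurableSet hcl hI]
  linarith

end

end LM0Aux

open LM0Aux in
theorem lm0 : S_LM0 := by
  intro c q cn fn gn f g h1 h2 h3 h4 h5 h6 h7 h8 h9 h10 h11 h12 h13 h14
  have H : Cv c q cn fn gn f g := ⟨h1, h2, h3, h4, h5, h6, h7, h8, h9, h10, h11, h12, h13, h14⟩
  exact ⟨adm_lim H, (main H).1, (main H).2⟩

end Pool.Agent.KRD
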