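import Pool.Agent.KRD.Stmts
import Mathlib.Analysis.Complex.HasPrimitives

/-!
# Powers of zero-free functions in the disc (helper74)
-/

set_option autoImplicit false

namespace Pool.Agent.KRD

open Complex MeasureTheory Set Filter Topology Metric

namespace LOGAux

/-- a zero-free holomorphic function in the disc is an exponential -/
theorem exists_exp {f : ℂ → ℂ} (hf : DifferentiableOn ℂ f (ball 0 1))
    (h0 : ∀ z : ℂ, ‖z‖ < 1 → f z ≠ 0) :
    ∃ h : ℂ → ℂ, DifferentiableOn ℂ h (ball 0 1) ∧ ∀ z : ℂ, ‖z‖ < 1 → f z = exp (h z) := by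
  have hm : ∀ z : ℂ, z ∈ ball (0 : ℂ) 1 ↔ ‖z‖ < 1 := fun z => by simp
  have hd : DifferentiableOn ℂ (fun z => deriv f z / f z) (ball 0 1) :=
    (hf.deriv isOpen_ball).div hf fun z hz => h0 z ((hm z).1 hz)
  obtain ⟨h, hh⟩ := hd.isExactOn_ball.with_val_at 0 (log (f 0))
  have hh0 : h 0 = log (f 0) := hh.1
  have hhd : ∀ z ∈ ball (0 : ℂ) 1, HasDerivAt h (deriv f z / f z) z := hh.2
  refine ⟨h, fun z hz => (hhd z hz).differentiableAt.differentiableWithinAt, fun z hz => ?_⟩
  have hu : ∀ w ∈ ball (0 : ℂ) 1, HasDerivAt (fun z => f z * exp (-h z)) 0 w := by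
    intro w hw
    have h1 : HasDerivAt f (deriv f w) w :=
      (hf.differentiableAt (isOpen_ball.mem_nhds hw)).hasDerivAt
    have h2 := h1.mul ((hhd w hw).neg.cexp)
    have h3 : deriv f w * exp (-h w) + f w * (exp (-h w) * -(deriv f w / f w)) = 0 := by
      have := h0 w ((hm w).1 hw)
      field_simp
      ring
    have h4 := h2.congr_deriv h3
    exact h4
  have hc := isOpen_ball.is_const_of_deriv_eq_zero (convex_ball (0 : ℂ) 1).isPreconnected
    (fun w hw => (hu w hw).differentiableAt.differentiableWithinAt)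
    (fun w hw => (hu w hw).deriv) ((hm z).2 hz) (mem_ball_self one_pos)
  rw [hh0, exp_neg (h z), exp_neg (log (f 0)), exp_log (h0 0 (by simp)),
    mul_inv_cancel₀ (h0 0 (by simp)), mul_inv_eq_one₀ (exp_ne_zero _)] at hc
  exact hc

end LOGAux

theorem log : S_LOG := by
  intro f s hf h0
  obtain ⟨h, hd, he⟩ := LOGAux.exists_exp hf h0
  refine ⟨fun z => exp ((s : ℂ) * h z), (hd.const_mul (s : ℂ)).cexp, fun z hz => ⟨exp_ne_zero _, ?_⟩⟩
  rw [he z hz, norm_exp, norm_exp, ← Real.exp_mul]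
  congr 1
  simp [mul_comm]

end Pool.Agent.KRD
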