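import Pool.Agent.KRD.Stmts

/-!
# No zeros, quantitative (module `NZ`)
-/

set_option autoImplicit false

namespace Pool.Agent.KRD

open Complex MeasureTheory Set Filter Topology Metric
open Pool.Agent.KRB (Berg nrm)
open Pool.Agent.KRC (An Dp LimA S_HAR S_MON S_HOP S_EXT)

namespace NZAux

/-- maximum principle on the disc of radius `a` -/
theorem maxp {φ : ℂ → ℂ} (hφ : DifferentiableOn ℂ φ (ball 0 1)) {a M : ℝ} (ha : 0 < a) (ha1 : a < 1)
    (h : ∀ z : ℂ, ‖z‖ = a → ‖φ z‖ ≤ M) : ∀ z : ℂ, ‖z‖ ≤ a → ‖φ z‖ ≤ M := by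
  intro z hz
  have h1 : DiffContOnCl ℂ φ (ball 0 a) :=
    hφ.diffContOnCl_ball (Pool.Agent.KRC.Bas.closedBall_sub ha1)
  refine Complex.norm_le_of_forall_mem_frontier_norm_le isBounded_ball h1 ?_ ?_
  · intro w hw
    rw [frontier_ball _ ha.ne'] at hw
    exact h w (mem_sphere_zero_iff_norm.1 hw)
  · rw [closure_ball _ ha.ne']
    exact mem_closedBall_zero_iff.2 hz

end NZAux

open NZAux in
theorem nz (hH : S_HAR) : S_NZ := by
  intro c₂ a b hc2 hca hab hb1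
  have ha : 0 < a := lt_of_le_of_lt hc2 hca
  have ha1 : a < 1 := lt_of_le_of_lt hab hb1
  have hK : IsCompact {z : ℂ | a ≤ ‖z‖ ∧ ‖z‖ ≤ b} := by
    have h1 : IsClosed {z : ℂ | a ≤ ‖z‖ ∧ ‖z‖ ≤ b} :=
      (isClosed_le continuous_const continuous_norm).inter
        (isClosed_le continuous_norm continuous_const)
    refine Metric.isCompact_of_isClosed_isBounded h1 ?_
    exact (isBounded_closedBall (x := (0 : ℂ)) (r := b)).subset fun z hz =>
      mem_closedBall_zero_iff.2 hz.2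
  have hKs : {z : ℂ | a ≤ ‖z‖ ∧ ‖z‖ ≤ b} ⊆ An c₂ := fun z hz =>
    ⟨lt_of_lt_of_le hca hz.1, lt_of_le_of_lt hz.2 hb1⟩
  have hna : ‖(a : ℂ)‖ = a := by
    rw [Complex.norm_real, Real.norm_of_nonneg ha.le]
  have hz0 : (a : ℂ) ∈ An c₂ := ⟨by rw [hna]; exact hca, by rw [hna]; exact ha1⟩
  obtain ⟨C, hC1, hC⟩ := hH c₂ _ (a : ℂ) hc2 hK hKs hz0
  have hC0 : 0 < C := by linarith
  have hC2 : 1 ≤ C ^ 2 := by nlinarith
  refine ⟨1 / (8 * C ^ 2), by positivity, ?_, ?_⟩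
  · rw [div_lt_one (by positivity)]
    linarith
  intro c' f g hc0 hc' hf hg hf0 hle ⟨z₁, hz₁, hlt⟩
  have hg0 : ∀ z : ℂ, c' < ‖z‖ → ‖z‖ < 1 → g z ≠ 0 := by
    intro z h1 h2 h3
    have h4 := hle z ⟨h1, h2⟩
    rw [h3, norm_zero] at h4
    exact hf0 z h2 (norm_le_zero_iff.1 h4)
  have hsub : An c₂ ⊆ ball 0 1 := Pool.Agent.KRC.Bas.An_sub c₂
  set ω : ℂ → ℂ := fun z => f z / g z with hω
  have hωd : DifferentiableOn ℂ ω (An c₂) :=
    (hf.mono hsub).div (hg.mono hsub) fun z hz => hg0 z (lt_of_le_of_lt hc' hz.1) hz.2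
  have hω1' : ∀ z : ℂ, c' < ‖z‖ → ‖z‖ < 1 → ‖ω z‖ ≤ 1 := by
    intro z h1 h2
    have h3 := norm_pos_iff.2 (hg0 z h1 h2)
    rw [hω]
    simp only [norm_div]
    rw [div_le_one h3]
    exact hle z ⟨h1, h2⟩
  have hω1 : ∀ z ∈ An c₂, ‖ω z‖ ≤ 1 := fun z hz => hω1' z (lt_of_le_of_lt hc' hz.1) hz.2
  have key := hC ω hωd hω1
  have he : 1 / (8 * C) ≤ 1 - ‖ω a‖ := by
    by_contra hcon
    push Not at hcon
    have h8 : 1 / (8 * C) ≤ 1 / 8 := by
      apply one_div_le_one_div_of_le (by norm_num)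
      linarith
    have hCe : C * (1 - ‖ω a‖) ≤ 1 / 8 := by
      have h1 : C * (1 - ‖ω a‖) ≤ C * (1 / (8 * C)) := mul_le_mul_of_nonneg_left hcon.le hC0.le
      have h2 : C * (1 / (8 * C)) = 1 / 8 := by field_simp
      linarith
    have hpos : 0 < ‖ω a‖ := by linarith
    set u : ℂ := ω a / (‖ω a‖ : ℂ) with hu
    have hune : (‖ω a‖ : ℂ) ≠ 0 := by
      exact_mod_cast hpos.ne'
    have hu1 : ‖u‖ = 1 := by
      rw [hu, norm_div, Complex.norm_real, norm_norm, div_self hpos.ne']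
    have huω : ‖u - ω a‖ = 1 - ‖ω a‖ := by
      have h1 : u - ω a = u * ((1 - ‖ω a‖ : ℝ) : ℂ) := by
        rw [hu]
        push_cast
        field_simp
      rw [h1, norm_mul, hu1, one_mul, Complex.norm_real, Real.norm_of_nonneg]
      have := hω1 a hz0
      linarith
    have hune0 : u ≠ 0 := by
      intro h
      rw [h, norm_zero] at hu1
      norm_num at hu1
    -- the function `u g / f`
    have hhd : DifferentiableOn ℂ (fun z => u * g z / f z - 1) (ball 0 1) :=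
      ((hg.const_mul u).div hf fun z hz => hf0 z (mem_ball_zero_iff.1 hz)).sub_const 1
    have hh : ∀ z : ℂ, ‖z‖ ≤ a → ‖u * g z / f z - 1‖ ≤ 1 / 3 := by
      refine maxp hhd ha ha1 ?_
      intro z hz
      have hzK : z ∈ {z : ℂ | a ≤ ‖z‖ ∧ ‖z‖ ≤ b} := ⟨hz.ge, hz.le.trans hab⟩
      have h1 := (key z hzK).1
      have h2 : ‖u - ω z‖ ≤ 1 / 4 := by
        have h3 : u - ω z = (u - ω a) - (ω z - ω a) := by ring
        rw [h3]
        refine (norm_sub_le _ _).trans ?_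
        rw [huω]
        linarith
      have h3 : 3 / 4 ≤ ‖ω z‖ := by
        have h4 : ‖u‖ ≤ ‖u - ω z‖ + ‖ω z‖ := by
          have := norm_add_le (u - ω z) (ω z)
          rwa [sub_add_cancel] at this
        rw [hu1] at h4
        linarith
      have hz1 : ‖z‖ < 1 := by rw [hz]; exact ha1
      have hgz : g z ≠ 0 := hg0 z (by rw [hz]; exact lt_of_le_of_lt hc' hca) hz1
      have hfz : f z ≠ 0 := hf0 z hz1
      have h4 : u * g z / f z - 1 = (u - ω z) / ω z := by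
        rw [hω]
        field_simp
      rw [h4, norm_div, div_le_iff₀ (by linarith)]
      linarith
    have hgn : ∀ z : ℂ, ‖z‖ < 1 → g z ≠ 0 := by
      intro z hz h0
      rcases le_or_gt ‖z‖ a with h | h
      · have := hh z h
        rw [h0] at this
        simp at this
        norm_num at this
      · exact hg0 z (lt_trans (lt_of_le_of_lt hc' hca) h) hz h0
    have hφd : DifferentiableOn ℂ ω (ball 0 1) :=
      hf.div hg fun z hz => hgn z (mem_ball_zero_iff.1 hz)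
    have hφ : ∀ z : ℂ, ‖z‖ ≤ a → ‖ω z‖ ≤ 1 := by
      refine maxp hφd ha ha1 ?_
      intro z hz
      exact hω1' z (by rw [hz]; exact lt_of_le_of_lt hc' hca) (by rw [hz]; exact ha1)
    have hg1 : 0 < ‖g z₁‖ := norm_pos_iff.2 (hgn z₁ hz₁)
    have h5 : ‖ω z₁‖ ≤ 1 := by
      rcases le_or_gt ‖z₁‖ a with h | h
      · exact hφ z₁ h
      · exact hω1' z₁ (lt_trans (lt_of_le_of_lt hc' hca) h) hz₁
    rw [hω] at h5
    simp only [norm_div] at h5
    rw [div_le_one hg1] at h5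
    linarith
  intro z hza hzb
  have h1 := (key z ⟨hza, hzb⟩).2
  have h2 : 1 / (8 * C ^ 2) ≤ 1 - ‖ω z‖ := by
    have h3 : C * (1 / (8 * C ^ 2)) = 1 / (8 * C) := by
      field_simp
    have h4 : C * (1 / (8 * C ^ 2)) ≤ C * (1 - ‖ω z‖) := by
      rw [h3]
      linarith
    exact le_of_mul_le_mul_left h4 hC0
  have hgz : g z ≠ 0 := hg0 z (lt_of_lt_of_le (lt_of_le_of_lt hc' hca) hza)
    (lt_of_le_of_lt hzb hb1)
  have h5 : ‖f z‖ = ‖ω z‖ * ‖g z‖ := by
    rw [hω]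
    simp only [norm_div]
    rw [div_mul_cancel₀ _ (norm_ne_zero_iff.2 hgz)]
  rw [h5]
  exact mul_le_mul_of_nonneg_right (by linarith) (norm_nonneg _)

end Pool.Agent.KRD
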