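import Pool.Agent.KRD.Stmts
import Pool.Agent.KRC.Sta

/-!
# The Korenblum constant for zero-free functions: larger exponents
-/

set_option autoImplicit false

namespace Pool.Agent.KRD

open Complex MeasureTheory Set Filter Topology Metric
open Pool.Agent.KRB (Berg nrm)
open Pool.Agent.KRC (An Dp LimA S_HAR S_MON S_HOP S_EXT)

namespace ST0Aux

/-- Bernoulli in two variables -/
theorem phi {p q : ℝ} (hp : 0 < p) (hpq : p < q) {a b : ℝ} (ha : 0 ≤ a) (hb : 0 ≤ b) :
    0 ≤ b ^ q - a ^ q - q / p * a ^ (q - p) * (b ^ p - a ^ p) := by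
  have hq : 0 < q := hp.trans hpq
  rcases ha.eq_or_lt with h | h
  · subst h
    rw [Real.zero_rpow hq.ne', Real.zero_rpow (sub_pos.2 hpq).ne']
    simp only [mul_zero, zero_mul, sub_zero]
    positivity
  · have hY : 0 < a ^ p := by positivity
    have hσ : 1 ≤ q / p := by
      rw [le_div_iff₀ hp]
      linarith
    have hB := one_add_mul_self_le_rpow_one_add (s := b ^ p / a ^ p - 1) (p := q / p)
      (by have : 0 ≤ b ^ p / a ^ p := by positivity
          linarith) hσ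
    have e1 : (1 + (b ^ p / a ^ p - 1)) ^ (q / p) = b ^ q / a ^ q := by
      have : 1 + (b ^ p / a ^ p - 1) = b ^ p / a ^ p := by ring
      rw [this, Real.div_rpow (by positivity) hY.le, ← Real.rpow_mul hb, ← Real.rpow_mul ha,
        mul_div_cancel₀ _ hp.ne']
    rw [e1] at hB
    have hq' : 0 < a ^ q := by positivity
    have e2 : a ^ (q - p) = a ^ q / a ^ p := Real.rpow_sub h q p
    have h2 := mul_le_mul_of_nonneg_right hB hq'.le
    rw [div_mul_cancel₀ _ hq'.ne'] at h2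
    have e3 : (1 + q / p * (b ^ p / a ^ p - 1)) * a ^ q =
        a ^ q + q / p * (a ^ q / a ^ p) * (b ^ p - a ^ p) := by
      field_simp
    rw [e2]
    rw [e3] at h2
    linarith

theorem phi_pos {p q : ℝ} (hp : 0 < p) (hpq : p < q) {a b : ℝ} (h : 0 < a) (hab : a < b) :
    0 < b ^ q - a ^ q - q / p * a ^ (q - p) * (b ^ p - a ^ p) := by
  have hq : 0 < q := hp.trans hpq
  have ha := h.le
  have hb : 0 ≤ b := ha.trans hab.le
  have hY : 0 < a ^ p := by positivity
  have hσ : 1 < q / p := by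
    rw [lt_div_iff₀ hp]
    linarith
  have hlt : a ^ p < b ^ p := Real.rpow_lt_rpow ha hab hp
  have h1 : 0 < b ^ p / a ^ p - 1 := by
    rw [sub_pos, lt_div_iff₀ hY]
    linarith
  have hB := one_add_mul_self_lt_rpow_one_add (s := b ^ p / a ^ p - 1) (p := q / p)
    (by linarith) h1.ne' hσ
  have e1 : (1 + (b ^ p / a ^ p - 1)) ^ (q / p) = b ^ q / a ^ q := by
    have : 1 + (b ^ p / a ^ p - 1) = b ^ p / a ^ p := by ring
    rw [this, Real.div_rpow (by positivity) hY.le, ← Real.rpow_mul hb, ← Real.rpow_mul ha,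
      mul_div_cancel₀ _ hp.ne']
  rw [e1] at hB
  have hq' : 0 < a ^ q := by positivity
  have e2 : a ^ (q - p) = a ^ q / a ^ p := Real.rpow_sub h q p
  have h2 := mul_lt_mul_of_pos_right hB hq'
  rw [div_mul_cancel₀ _ hq'.ne'] at h2
  have e3 : (1 + q / p * (b ^ p / a ^ p - 1)) * a ^ q =
      a ^ q + q / p * (a ^ q / a ^ p) * (b ^ p - a ^ p) := by
    field_simp
  rw [e2]
  rw [e3] at h2
  linarith

/-- `1 - p t ≤ (1 + t)^{-p}` -/
theorem bern {t p : ℝ} (ht : 0 ≤ t) (hp : 0 < p) : 1 - p * t ≤ ((1 + t)⁻¹) ^ p := by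
  have h1 : 0 < 1 + t := by linarith
  rw [Real.inv_rpow h1.le, ← Real.rpow_neg h1.le, Real.rpow_def_of_pos h1]
  have h2 := Real.add_one_le_exp (Real.log (1 + t) * -p)
  have h3 := Real.log_le_sub_one_of_pos h1
  have h4 : Real.log (1 + t) * p ≤ t * p := mul_le_mul_of_nonneg_right (by linarith) hp.le
  linarith

end ST0Aux

open ST0Aux in
theorem st0 (hD : S_DI0) (hE : S_EXT) (hW : S_WT0) (hL : S_LOG) : S_ST0 := by
  intro p q κ hp0 hpq h0 h1 hK f g H
  by_contra hne
  have hnz : ∀ z : ℂ, ‖z‖ < 1 → f z ≠ 0 := fun z hz hh => hne ⟨z, hz, hh⟩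
  have hq0 : 0 < q := hp0.trans hpq
  have hqp : 0 < q - p := sub_pos.2 hpq
  obtain ⟨B, dB, hB⟩ := hL f (q / p - 1) H.df hnz
  have hfc := H.df.continuousOn
  have hgc := H.dg.continuousOn
  have hxc : ContinuousOn (fun z => ‖g z‖ ^ p) (ball 0 1) := KRC.Bas.pow_cont hgc hp0.le
  have hyc : ContinuousOn (fun z => ‖f z‖ ^ p) (ball 0 1) := KRC.Bas.pow_cont hfc hp0.le
  have hwc : ContinuousOn (fun z => ‖f z‖ ^ (q - p)) (ball 0 1) := KRC.Bas.pow_cont hfc hqp.le
  have hgq : ContinuousOn (fun z => ‖g z‖ ^ q) (ball 0 1) := KRC.Bas.pow_cont hgc hq0.le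
  have hfq : ContinuousOn (fun z => ‖f z‖ ^ q) (ball 0 1) := KRC.Bas.pow_cont hfc hq0.le
  have hyw : ∀ z, ‖f z‖ ^ p * ‖f z‖ ^ (q - p) = ‖f z‖ ^ q := fun z => by
    rw [← Real.rpow_add_of_nonneg (norm_nonneg _) hp0.le hqp.le]
    congr 1
    ring
  have hBp : ∀ z : ℂ, ‖z‖ < 1 → ‖B z‖ ^ p = ‖f z‖ ^ (q - p) := fun z hz => by
    rw [(hB z hz).2, ← Real.rpow_mul (norm_nonneg _)]
    congr 1
    field_simp
  obtain ⟨z₁, hz₁, hlt⟩ := H.lt
  have nz : ∃ z ∈ ball (0 : ℂ) 1, g z ≠ 0 := ⟨z₁, KRC.Bas.An_sub κ hz₁, fun h => by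
    rw [h, norm_zero] at hlt
    exact absurd hlt (not_lt.2 (norm_nonneg _))⟩
  obtain ⟨C, r₀, hC, hr00, hr01, hdom⟩ := KRC.STAAux.dom hE h0 h1 H.df H.dg H.le nz
  -- main inequality
  have main : ∀ r : ℝ, r₀ < r → r < 1 →
      (1 - p * (C * (1 - r))) * ∫ w in ball (0 : ℂ) r, ‖f w‖ ^ q ≤
        ∫ w in ball (0 : ℂ) r, ‖g w‖ ^ p * ‖f w‖ ^ (q - p) := by
    intro r hr0 hr1
    have ht : 0 ≤ C * (1 - r) := mul_nonneg hC (by linarith)
    set t : ℝ := C * (1 - r) with htd
    have h1t : 0 < 1 + t := by linarith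
    have h1t' : ((1 + t : ℝ) : ℂ)⁻¹ ≠ 0 := inv_ne_zero (by exact_mod_cast h1t.ne')
    have key := hD p κ r (fun z => ((1 + t : ℝ) : ℂ)⁻¹ * (f z * B z))
      (fun z => g z * B z) hp0 hK (hr00.trans hr0) hr1
      ((H.df.mul dB).const_mul _) (H.dg.mul dB)
      (fun z hz => mul_ne_zero h1t' (mul_ne_zero (hnz z hz) (hB z hz).1)) ?_
    · have e1 : ∫ w in ball (0 : ℂ) r, ‖((1 + t : ℝ) : ℂ)⁻¹ * (f w * B w)‖ ^ p =
          ((1 + t)⁻¹) ^ p * ∫ w in ball (0 : ℂ) r, ‖f w‖ ^ q := by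
        rw [← integral_const_mul]
        refine setIntegral_congr_fun measurableSet_ball fun w hw => ?_
        rw [mem_ball_zero_iff] at hw
        show ‖((1 + t : ℝ) : ℂ)⁻¹ * (f w * B w)‖ ^ p = ((1 + t)⁻¹) ^ p * ‖f w‖ ^ q
        rw [norm_mul, norm_mul, norm_inv, Complex.norm_real, Real.norm_of_nonneg h1t.le,
          Real.mul_rpow (by positivity) (by positivity),
          Real.mul_rpow (by positivity) (by positivity), hBp w (hw.trans hr1), hyw w]
      have e2 : ∫ w in ball (0 : ℂ) r, ‖g w * B w‖ ^ p =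
          ∫ w in ball (0 : ℂ) r, ‖g w‖ ^ p * ‖f w‖ ^ (q - p) := by
        refine setIntegral_congr_fun measurableSet_ball fun w hw => ?_
        rw [mem_ball_zero_iff] at hw
        show ‖g w * B w‖ ^ p = ‖g w‖ ^ p * ‖f w‖ ^ (q - p)
        rw [norm_mul, Real.mul_rpow (by positivity) (by positivity), hBp w (hw.trans hr1)]
      rw [e1, e2] at key
      refine le_trans ?_ key
      refine mul_le_mul_of_nonneg_right (bern ht hp0) ?_
      exact integral_nonneg fun w => by positivity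
    · intro w hw hw'
      have h2 := hdom r hr0 hr1 w hw hw'
      show ‖((1 + t : ℝ) : ℂ)⁻¹ * (f w * B w)‖ ≤ ‖g w * B w‖
      rw [norm_mul, norm_mul, norm_mul, norm_inv, Complex.norm_real,
        Real.norm_of_nonneg h1t.le, ← mul_assoc]
      refine mul_le_mul_of_nonneg_right ?_ (by positivity)
      rw [inv_mul_le_iff₀ h1t]
      exact h2
  -- integrability of the weight
  have hwt : IntegrableOn (fun z => (1 - ‖z‖) * ‖f z‖ ^ q) (ball 0 1) := by
    have hw := hW κ q f g h0 h1 hq0 H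
    have hmeas : AEStronglyMeasurable (fun z : ℂ => (1 - ‖z‖) * ‖f z‖ ^ q)
        (volume.restrict (ball 0 1)) :=
      KRC.Bas.meas ((continuousOn_const.sub continuous_norm.continuousOn).mul hfq)
    have hU : ball (0 : ℂ) 1 = closedBall 0 κ ∪ An κ := by
      ext z
      simp only [mem_ball_zero_iff, mem_union, mem_closedBall_zero_iff, An, mem_ofPred_eq]
      constructor
      · intro hz
        by_cases hk : ‖z‖ ≤ κ
        · exact Or.inl hk
        · exact Or.inr ⟨not_le.1 hk, hz⟩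
      · rintro (hz | hz)
        · exact hz.trans_lt h1
        · exact hz.2
    rw [hU, integrableOn_union]
    refine ⟨KRC.Bas.intOn_of_cont ((continuousOn_const.sub continuous_norm.continuousOn).mul
        hfq) h1, ?_⟩
    refine Integrable.mono' (hw.mono_set (KRC.Bas.An_sub κ)).norm
      (hmeas.mono_measure (Measure.restrict_mono (KRC.Bas.An_sub κ) le_rfl)) ?_
    filter_upwards [ae_restrict_mem (KRC.Bas.isOpen_An κ).measurableSet] with z hz
    have h2 : 0 ≤ 1 - ‖z‖ := by linarith [hz.2]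
    rw [norm_mul, norm_mul, Real.norm_of_nonneg h2]
    refine mul_le_mul_of_nonneg_left ?_ h2
    rw [Real.norm_of_nonneg (by positivity), Real.norm_of_nonneg (by positivity)]
    exact Real.rpow_le_rpow (norm_nonneg _) (H.le z hz) hq0.le
  -- the sequence of radii
  set r : ℕ → ℝ := fun k => 1 - 1 / ((k : ℝ) + 2) with hr
  have hr1 : ∀ k, r k < 1 := fun k => by
    have : 0 < 1 / ((k : ℝ) + 2) := by positivity
    simp only [hr]
    linarith
  have hrt : Tendsto r atTop (𝓝 1) := by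
    have h2 : Tendsto (fun k : ℕ => 1 / ((k : ℝ) + 2)) atTop (𝓝 0) := by
      have h3 : Tendsto (fun k : ℕ => 1 / ((k : ℝ) + 1)) atTop (𝓝 0) :=
        tendsto_one_div_add_atTop_nhds_zero_nat
      refine squeeze_zero (fun k => by positivity) (fun k => ?_) h3
      gcongr
      norm_num
    simpa [hr] using h2.const_sub 1
  have hz0 : Tendsto (fun k => (1 - r k) * ∫ w in ball (0 : ℂ) (r k), ‖f w‖ ^ q) atTop
      (𝓝 0) := by
    have e : ∀ k, (1 - r k) * ∫ w in ball (0 : ℂ) (r k), ‖f w‖ ^ q =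
        ∫ w in ball (0 : ℂ) 1, (ball (0 : ℂ) (r k)).indicator
          (fun w => (1 - r k) * ‖f w‖ ^ q) w := by
      intro k
      rw [setIntegral_indicator measurableSet_ball,
        inter_eq_right.2 (ball_subset_ball (hr1 k).le), ← integral_const_mul]
    simp_rw [e]
    have h4 : (0 : ℝ) = ∫ w in ball (0 : ℂ) 1, (0 : ℝ) := by simp
    rw [h4]
    refine tendsto_integral_of_dominated_convergence (fun z => (1 - ‖z‖) * ‖f z‖ ^ q) ?_ hwt ?_ ?_
    · intro k
      exact ((KRC.Bas.norm_pow_meas hfc q).const_mul _).indicator measurableSet_ball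
    · intro k
      filter_upwards [ae_restrict_mem measurableSet_ball] with z hz
      rw [mem_ball_zero_iff] at hz
      by_cases hzk : z ∈ ball (0 : ℂ) (r k)
      · rw [indicator_of_mem hzk, Real.norm_of_nonneg
          (mul_nonneg (by linarith [hr1 k]) (by positivity))]
        rw [mem_ball_zero_iff] at hzk
        gcongr
      · rw [indicator_of_notMem hzk, norm_zero]
        exact mul_nonneg (by linarith) (by positivity)
    · filter_upwards [ae_restrict_mem measurableSet_ball] with z hz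
      rw [mem_ball_zero_iff] at hz
      have h5 : Tendsto (fun k => (1 - r k) * ‖f z‖ ^ q) atTop (𝓝 0) := by
        have := (hrt.const_sub 1).mul_const (‖f z‖ ^ q)
        simpa using this
      refine h5.congr' ?_
      filter_upwards [hrt.eventually (lt_mem_nhds hz)] with k hk
      rw [indicator_of_mem (mem_ball_zero_iff.2 hk)]
  -- the function Φ
  set Φ : ℂ → ℝ := fun z => ‖g z‖ ^ q - ‖f z‖ ^ q -
    q / p * ‖f z‖ ^ (q - p) * (‖g z‖ ^ p - ‖f z‖ ^ p) with hΦ
  have hΦc : ContinuousOn Φ (ball 0 1) :=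
    (hgq.sub hfq).sub ((continuousOn_const.mul hwc).mul (hxc.sub hyc))
  have hΦ0 : ∀ z, 0 ≤ Φ z := fun z => phi hp0 hpq (norm_nonneg _) (norm_nonneg _)
  have hz₁' : 0 < Φ z₁ := phi_pos hp0 hpq (norm_pos_iff.2 (hnz z₁ hz₁.2)) hlt
  obtain ⟨r₁, hr₁, hr₁'⟩ := exists_between hz₁.2
  have hη : 0 < ∫ z in ball (0 : ℂ) r₁, Φ z := by
    rw [setIntegral_pos_iff_support_of_nonneg_ae (Eventually.of_forall hΦ0)
      ((KRC.Bas.intOn_of_cont hΦc hr₁').mono_set ball_subset_closedBall)]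
    have hO : IsOpen (ball (0 : ℂ) r₁ ∩ Φ ⁻¹' Ioi 0) :=
      (hΦc.mono (ball_subset_ball hr₁'.le)).isOpen_inter_preimage isOpen_ball isOpen_Ioi
    refine (hO.measure_pos volume ⟨z₁, mem_ball_zero_iff.2 hr₁, hz₁'⟩).trans_le
      (measure_mono ?_)
    rintro z ⟨hz, hz'⟩
    exact ⟨(mem_Ioi.1 hz').ne', hz⟩
  set η : ℝ := ∫ z in ball (0 : ℂ) r₁, Φ z with hηd
  have hσ0 : 0 ≤ q / p := by positivity
  -- lower bound
  have low : ∀ᶠ k in atTop, η - q / p * (p * C) *
      ((1 - r k) * ∫ w in ball (0 : ℂ) (r k), ‖f w‖ ^ q) ≤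
      ∫ z in ball (0 : ℂ) (r k), Dp q f g z := by
    filter_upwards [hrt.eventually (lt_mem_nhds hr01), hrt.eventually (lt_mem_nhds hr₁')]
      with k hk hk'
    have hm1 := main (r k) hk (hr1 k)
    have hiy : IntegrableOn (fun w => ‖f w‖ ^ q) (ball 0 (r k)) :=
      (KRC.Bas.intOn_of_cont hfq (hr1 k)).mono_set ball_subset_closedBall
    have hixy : IntegrableOn (fun w => ‖g w‖ ^ p * ‖f w‖ ^ (q - p)) (ball 0 (r k)) :=
      (KRC.Bas.intOn_of_cont (hxc.mul hwc) (hr1 k)).mono_set ball_subset_closedBall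
    have hiΦ : IntegrableOn Φ (ball 0 (r k)) :=
      (KRC.Bas.intOn_of_cont hΦc (hr1 k)).mono_set ball_subset_closedBall
    have e3 : ∫ z in ball (0 : ℂ) (r k), Dp q f g z = (∫ z in ball (0 : ℂ) (r k), Φ z) +
        q / p * ((∫ z in ball (0 : ℂ) (r k), ‖g z‖ ^ p * ‖f z‖ ^ (q - p)) -
          ∫ z in ball (0 : ℂ) (r k), ‖f z‖ ^ q) := by
      have hsub : IntegrableOn (fun z => q / p *
          (‖g z‖ ^ p * ‖f z‖ ^ (q - p) - ‖f z‖ ^ q)) (ball 0 (r k)) := (hixy.sub hiy).const_mul _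
      rw [← integral_sub hixy hiy, ← integral_const_mul, ← integral_add hiΦ hsub]
      refine integral_congr_ae (Eventually.of_forall fun z => ?_)
      have e5 := hyw z
      simp only [Dp, hΦ]
      rw [← e5]
      ring
    have e4 : η ≤ ∫ z in ball (0 : ℂ) (r k), Φ z :=
      setIntegral_mono_set hiΦ (Eventually.of_forall hΦ0)
        (ball_subset_ball hk'.le).eventuallyLE
    rw [e3]
    nlinarith [mul_le_mul_of_nonneg_left hm1 hσ0]
  have hlim := (hz0.const_mul (q / p * (p * C))).const_sub η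
  have hlim2 := KRC.Bas.tendsto_int H.int (fun k => (hr1 k).le) hrt
  have h7 := le_of_tendsto_of_tendsto hlim hlim2 low
  have h8 := H.nonpos
  rw [mul_zero, sub_zero] at h7
  linarith

end Pool.Agent.KRD
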