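import Pool.Agent.KRD.Defs

/-!
# The Korenblum constant for zero-free functions: statements of the modules

THEOREM (`S_FIN`). For `p > 0` let `κ⁰_p` be the supremum of the `c ∈ (0,1)` such that `‖f‖_p ≤ ‖g‖_p` for all `f, g` in the
Bergman space with `|f| ≤ |g|` on the annulus `c < |z| < 1` and `f` without zeros. Then `p ↦ κ⁰_p` is strictly increasing on
`(0, ∞)` with values in `(0, 1)`. (Without the last condition the property fails for all `c` if `p < 1`.)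

The structure is that of `Pool/Agent/KRC/Stmts.lean` (there: all `f`, exponents `≥ 1`, `q = m p`), and many proofs can be copied
from `Pool/Agent/KRC/*.lean` (all proved on main) with small changes; here the exponents are arbitrary positive numbers. Basic
lemmas: `Pool/Agent/KRC/Bas.lean`. `An c = {z | c < ‖z‖ ∧ ‖z‖ < 1}`.
-/

set_option autoImplicit false

namespace Pool.Agent.KRD

open Complex MeasureTheory Set Filter Topology Metric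
open Pool.Agent.KRB (Berg nrm)
open Pool.Agent.KRC (An Dp LimA S_HAR S_MON S_HOP S_EXT)

/-- **No zeros, quantitative** (uses `Pool.Agent.KRC.S_HAR` and `Pool.Agent.KRB.rem : S_REM`). `‖g‖ ≥ ‖f‖ > 0` on `An c'`, so `g ≠ 0` there;
`f = ω g` on `An c'`, `‖ω‖ ≤ 1`. Let `z₀ = a`, `e = 1 - ‖ω z₀‖` and `C ≥ 1` from `S_HAR` for `c = c₂`, `K = {a ≤ ‖z‖ ≤ b}`, `z₀` (`C` depends only on
`c₂, a, b`; `An c₂ ⊆ An c'`). Suppose `e < 1/(8 C)`. Let `ω z₀ = u ‖ω z₀‖`, `‖u‖ = 1`. On `‖z‖ = a`: `‖u - ω z‖ ≤ e + C e ≤ 1/4`, `‖ω z‖ ≥ 3/4`. So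
`h = u g/f`, analytic in the disc (`f` has no zeros), satisfies `‖h - 1‖ = ‖u - ω‖/‖ω‖ ≤ 1/3` for `‖z‖ = a`, hence for `‖z‖ ≤ a` (maximum
principle), so `g ≠ 0` for `‖z‖ ≤ a` and hence in the disc. Then `f/g` is analytic in the disc, `‖f/g‖ ≤ 1` for `c' < ‖z‖ < 1`, so
`‖f/g‖ ≤ 1` in the disc (maximum principle): excluded. So `e ≥ 1/(8 C)`, and `e ≤ C (1 - ‖ω z‖)` on `K` by `S_HAR`; `η = 1/(8 C²)`. -/
def S_NZ : Prop := ∀ c₂ a b : ℝ, 0 ≤ c₂ → c₂ < a → a ≤ b → b < 1 → ∃ η : ℝ, 0 < η ∧ η < 1 ∧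
  ∀ (c' : ℝ) (f g : ℂ → ℂ), 0 ≤ c' → c' ≤ c₂ → DifferentiableOn ℂ f (ball 0 1) →
    DifferentiableOn ℂ g (ball 0 1) → (∀ z : ℂ, ‖z‖ < 1 → f z ≠ 0) →
    (∀ z ∈ An c', ‖f z‖ ≤ ‖g z‖) → (∃ z : ℂ, ‖z‖ < 1 ∧ ‖g z‖ < ‖f z‖) →
    ∀ z : ℂ, a ≤ ‖z‖ → ‖z‖ ≤ b → ‖f z‖ ≤ (1 - η) * ‖g z‖

/-- **Local bounds** (uses `S_NZ`; `Pool.Agent.KRC.SMVAux.area_submean` in `Pool/Agent/KRC/Smv.lean`: sub-mean value property of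
`‖F‖^q` for every `q > 0`; compare `Pool/Agent/KRC/Bnd.lean`). The norm inequality gives a point with `‖g z‖ < ‖f z‖` (otherwise
`nrm q f ≤ nrm q g`). `‖f‖ ≤ ‖g‖ ≤ 1` for `‖z‖ = r₁`, so `‖f‖ ≤ 1` for `‖z‖ ≤ r₁` (maximum principle). From `nrm q g < nrm q f`:
`∫_{An c'} (‖g‖^q - ‖f‖^q) < ∫_{‖z‖ ≤ c'} (‖f‖^q - ‖g‖^q) ≤ π`. Given `b < 1`, let `a' = (c₂ + r₁)/2`, `b' = (1 + max b r₁)/2` and `η` from `S_NZ` for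
`a', b'`: on `a' ≤ ‖z‖ ≤ b'`, `‖g‖^q - ‖f‖^q ≥ (1 - (1 - η)^q) ‖g‖^q`, so `∫_{a' < ‖z‖ < b'} ‖g‖^q ≤ π/(1 - (1 - η)^q)`. With the sub-mean value
property on balls around the points of the circle `‖z‖ = ρ`, `ρ` between `max b r₁` and `b'` (radius `min (ρ - a') (b' - ρ)`), this bounds
`‖g‖^q` on this circle, hence `‖g‖` and `‖f‖ ≤ ‖g‖` there, and by the maximum principle for `‖z‖ ≤ b`. -/
def S_BD0 : Prop := ∀ c₂ r₁ q : ℝ, 0 ≤ c₂ → c₂ < r₁ → r₁ < 1 → 0 < q → ∃ C : ℝ → ℝ,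
  ∀ (c' : ℝ) (f g : ℂ → ℂ), 0 ≤ c' → c' ≤ c₂ → Berg q f → Berg q g →
    (∀ z : ℂ, ‖z‖ < 1 → f z ≠ 0) → (∀ z ∈ An c', ‖f z‖ ≤ ‖g z‖) → nrm q g < nrm q f →
    (∀ z : ℂ, ‖z‖ ≤ r₁ → ‖g z‖ ≤ 1) →
    ∀ b : ℝ, b < 1 → ∀ z : ℂ, ‖z‖ ≤ b → ‖f z‖ ≤ C b ∧ ‖g z‖ ≤ C b

/-- **Limits.** As `Pool/Agent/KRC/Lma.lean` (copy it; there the exponents vary and `f_n = g_n - e_n k_n`). For `c < a < b < 1` and large `n`
(`cn n ≤ a`): `∫_{a<‖z‖<b} (‖gn‖^q - ‖fn‖^q) ≤ ∫_{‖z‖ ≤ cn} (‖fn‖^q - ‖gn‖^q)` since the integral over the whole disc is `≤ 0` (`nrm q gn ≤ nrm q fn`,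
`q > 0`) and the integrand is `≥ 0` on `An cn`. Let `n → ∞` (both sides converge), then `a → c`, `b → 1` (monotone convergence). -/
def S_LM0 : Prop := ∀ (c q : ℝ) (cn : ℕ → ℝ) (fn gn : ℕ → ℂ → ℂ) (f g : ℂ → ℂ), 0 ≤ c → c < 1 →
  0 < q → (∀ n, 0 ≤ cn n) → (∀ n, cn n < 1) → Tendsto cn atTop (𝓝 c) →
  (∀ n, Berg q (fn n)) → (∀ n, Berg q (gn n)) → (∀ n, ∀ z ∈ An (cn n), ‖fn n z‖ ≤ ‖gn n z‖) →
  (∀ n, nrm q (gn n) ≤ nrm q (fn n)) →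
  DifferentiableOn ℂ f (ball 0 1) → DifferentiableOn ℂ g (ball 0 1) →
  (∀ r : ℝ, r < 1 → TendstoUniformlyOn fn f atTop (closedBall 0 r)) →
  (∀ r : ℝ, r < 1 → TendstoUniformlyOn gn g atTop (closedBall 0 r)) →
  (∀ z ∈ An c, ‖f z‖ ≤ ‖g z‖) ∧ IntegrableOn (Dp q f g) (ball 0 1) ∧
    ∫ z in ball (0 : ℂ) 1, Dp q f g z ≤ 0

/-- **Hurwitz.** Suppose `f z₁ = 0`. `f` is not identically `0`, so `z₁` is isolated: there is `ρ > 0` with `closedBall z₁ ρ ⊆ ball 0 1` and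
`‖f‖ ≥ m > 0` on the sphere. For large `n`, `‖fn n‖ ≥ m/2` on the sphere, `1/fn n` is analytic in the closed ball, so
`‖1/fn n z₁‖ ≤ 2/m` (maximum principle): `‖fn n z₁‖ ≥ m/2`, but `fn n z₁ → f z₁ = 0`. -/
def S_HUR : Prop := ∀ (fn : ℕ → ℂ → ℂ) (f : ℂ → ℂ), (∀ n, DifferentiableOn ℂ (fn n) (ball 0 1)) →
  (∀ n, ∀ z : ℂ, ‖z‖ < 1 → fn n z ≠ 0) → DifferentiableOn ℂ f (ball 0 1) →
  (∀ r : ℝ, r < 1 → TendstoUniformlyOn fn f atTop (closedBall 0 r)) →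
  (∃ z : ℂ, ‖z‖ < 1 ∧ f z ≠ 0) → ∀ z : ℂ, ‖z‖ < 1 → f z ≠ 0

/-- **Extraction** (uses `S_NZ`, `S_BD0`, `S_LM0`, `S_HUR`, `Pool.Agent.KRC.S_MON`; compare `Pool/Agent/KRC/Exr.lean`). `c₂ = sup cn < 1`,
`r₁ = (1 + c₂)/2`. Bad pairs `(f_n, g_n)` for `(q, cn)`, divided by `max_{‖z‖ ≤ r₁} ‖g_n‖ > 0`, are locally uniformly bounded
(`S_BD0`); pass to a locally uniformly convergent subsequence: `f, g`. `S_LM0` gives `le`, `int`, `nonpos`. Strictness: by `S_NZ`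
(`a = b = r₁`; a bad pair has a point with `‖g z‖ < ‖f z‖`) `‖f‖ ≤ (1 - η) ‖g‖` for `‖z‖ = r₁`, and `g ≠ 0` somewhere on this circle
(`max_{‖z‖ ≤ r₁} ‖g‖ = 1`, maximum principle). `f` is not identically `0` (otherwise `0 ≥ ∫ Dp = ∫ ‖g‖^q > 0`), so it has no zeros by `S_HUR`. -/
def S_EX0 : Prop := ∀ (q c : ℝ) (cn : ℕ → ℝ), 0 < q → 0 ≤ c → c < 1 → (∀ n, 0 ≤ cn n) →
  (∀ n, cn n < 1) → Tendsto cn atTop (𝓝 c) → (∀ n, ¬ KP0 q (cn n)) →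
  ∃ f g : ℂ → ℂ, LimA c q f g ∧ ∀ z : ℂ, ‖z‖ < 1 → f z ≠ 0

/-- **Weight** (uses `Pool.Agent.KRC.S_HOP`; copy the first part of `Pool/Agent/KRC/Wt.lean`). For `ρ = (1 + κ)/2 ≤ ‖z‖ < 1`, `s = 1 - ‖z‖`:
`Dp ≥ ‖g‖^q (1 - (1 - a s)^q)` and `(1 - a s)^q ≤ 1 - min 1 q · a s` (Bernoulli, concave or convex case). -/
def S_WT0 : Prop := ∀ (κ q : ℝ) (f g : ℂ → ℂ), 0 ≤ κ → κ < 1 → 0 < q → LimA κ q f g →
  IntegrableOn (fun z => (1 - ‖z‖) * ‖g z‖ ^ q) (ball 0 1)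

/-- **Dilation.** Copy `Pool/Agent/KRC/Dil.lean`: the dilate of a zero-free function has no zeros. -/
def S_DI0 : Prop := ∀ (p κ r : ℝ) (F G : ℂ → ℂ), 0 < p → KP0 p κ → 0 < r → r < 1 →
  DifferentiableOn ℂ F (ball 0 1) → DifferentiableOn ℂ G (ball 0 1) →
  (∀ z : ℂ, ‖z‖ < 1 → F z ≠ 0) → (∀ w : ℂ, r * κ < ‖w‖ → ‖w‖ < r → ‖F w‖ ≤ ‖G w‖) →
  ∫ w in ball (0 : ℂ) r, ‖F w‖ ^ p ≤ ∫ w in ball (0 : ℂ) r, ‖G w‖ ^ p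

/-- **Powers.** `f = exp h` in the disc (a primitive of `f'/f`, e.g. `DifferentiableOn.isExactOn_ball` or similar; then
`(f exp (-h))' = 0`); `B = exp (s h)`, `‖B‖ = exp (s Re h) = ‖f‖^s`. -/
def S_LOG : Prop := ∀ (f : ℂ → ℂ) (s : ℝ), DifferentiableOn ℂ f (ball 0 1) →
  (∀ z : ℂ, ‖z‖ < 1 → f z ≠ 0) → ∃ B : ℂ → ℂ, DifferentiableOn ℂ B (ball 0 1) ∧
    ∀ z : ℂ, ‖z‖ < 1 → B z ≠ 0 ∧ ‖B z‖ = ‖f z‖ ^ s

/-- **The constant itself is good** (uses `Pool.Agent.KRC.S_EXT`; copy `Pool/Agent/KRC/Kgd.lean`). `kap0 p < 1`: if `0 < c < 1` and `KP0 p c`, then the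
pair `f = c`, `g = z` gives `c ^ p (p + 2) ≤ 2` (`Pool.Agent.KRB.rad`, third part: `∫ ‖z‖^p = 2π/(p+2)`, see `UPAux.small` in
`Pool/Agent/KRB/Up.lean`), so `c ≤ (2/(p+2))^{1/p} < 1`. -/
def S_KG0 : Prop := ∀ p : ℝ, 0 < p → 0 ≤ kap0 p ∧ kap0 p < 1 ∧ KP0 p (kap0 p)

/-- **Larger exponents** (uses `S_DI0`, `Pool.Agent.KRC.S_EXT`, `S_WT0`, `S_LOG`; compare `Pool/Agent/KRC/Sta.lean`, where `q = m p` and
`B = f^{m-1}`; `STAAux.dom` there can be used). Let `σ = q/p > 1`, `B` from `S_LOG` with `‖B‖ = ‖f‖^{σ-1}`, and `C, r₀` with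
`‖f w‖ ≤ (1 + C (1 - r)) ‖g w‖` for `r₀ < r < 1`, `r κ < ‖w‖ < r`. `S_DI0` for `F = f B/(1 + C (1 - r))` (no zeros) and `G = g B`: with `x = ‖g‖^p`,
`y = ‖f‖^p`, `(1 + C (1-r))^{-p} ∫_{ball r} y^σ ≤ ∫_{ball r} x y^{σ-1}`, so
`∫_{ball r} y^{σ-1} (x - y) ≥ -p C (1 - r) ∫_{ball r} ‖f‖^q` (`(1 + t)^{-p} ≥ 1 - p t` for all `p > 0`), which tends to `0` as `r → 1` by `S_WT0`
(`(1 - ‖w‖) ‖f‖^q` is integrable; dominated convergence). `Φ = x^σ - y^σ - σ y^{σ-1} (x - y)` is continuous, `≥ 0`, and `> 0` if `x ≠ y` (`y > 0`;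
Bernoulli: `one_add_mul_self_lt_rpow_one_add` for `x/y - 1`). So `∫_{ball r} Dp q f g ≥ ∫_{ball r₁} Φ - o(1)`, and `∫ Dp > 0`: a contradiction. -/
def S_ST0 : Prop := ∀ p q κ : ℝ, 0 < p → p < q → 0 ≤ κ → κ < 1 → KP0 p κ →
  ∀ f g : ℂ → ℂ, LimA κ q f g → ∃ z : ℂ, ‖z‖ < 1 ∧ f z = 0

/-- **Conclusion** (uses `S_EX0`, `S_KG0`, `S_ST0`). Let `0 < p < q`, `κ = kap0 p` and suppose `kap0 q ≤ κ`. The constants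
`cn = κ + (1 - κ)/(n + 2)` are `> kap0 q`, so `¬ KP0 q cn`; `S_EX0` gives a pair which contradicts `S_ST0` (`KP0 p κ` by `S_KG0`). So `kap0` is
strictly increasing; `kap0 q > kap0 (q/2) ≥ 0`. -/
def S_FIN : Prop := StrictMonoOn kap0 (Ioi 0) ∧ MapsTo kap0 (Ioi 0) (Ioo 0 1)

end Pool.Agent.KRD
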