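import Pool.Agent.KRC.Wt
import Pool.Agent.KRD.Stmts

/-!
# The Korenblum constant for zero-free functions: the weight
-/

set_option autoImplicit false

namespace Pool.Agent.KRD

open Complex MeasureTheory Set Filter Topology Metric
open Pool.Agent.KRB (Berg nrm)
open Pool.Agent.KRC (An Dp LimA S_HAR S_MON S_HOP S_EXT)
open Pool.Agent.KRC

namespace WT0Aux

/-- comparison with an integrable function near the circle, every exponent `q ≥ 0` -/
theorem comp0 {g : ℂ → ℂ} {Φ : ℂ → ℝ} {q ρ C : ℝ} (hg : DifferentiableOn ℂ g (ball 0 1))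
    (hq : 0 ≤ q) (hρ1 : ρ < 1) (hC : 0 ≤ C) (hΦ : IntegrableOn Φ (ball 0 1))
    (h : ∀ z : ℂ, ρ ≤ ‖z‖ → ‖z‖ < 1 → (1 - ‖z‖) * ‖g z‖ ^ q ≤ C * Φ z) :
    IntegrableOn (fun z => (1 - ‖z‖) * ‖g z‖ ^ q) (ball 0 1) := by
  have hc : ContinuousOn (fun z : ℂ => (1 - ‖z‖) * ‖g z‖ ^ q) (ball 0 1) :=
    (continuousOn_const.sub continuous_norm.continuousOn).mul
      (Bas.pow_cont hg.continuousOn hq)
  have hm := Bas.meas hc
  have h1 : IntegrableOn (fun z : ℂ => (1 - ‖z‖) * ‖g z‖ ^ q) (closedBall 0 ρ) :=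
    Bas.intOn_of_cont hc hρ1
  have h2 : IntegrableOn (fun z : ℂ => (1 - ‖z‖) * ‖g z‖ ^ q) (ball 0 1 \ closedBall 0 ρ) := by
    have h3 : IntegrableOn (fun z => C * |Φ z|) (ball (0 : ℂ) 1 \ closedBall 0 ρ) :=
      IntegrableOn.mono_set (Integrable.const_mul (Integrable.abs hΦ) C) sdiff_subset
    refine Integrable.mono' h3 (hm.mono_measure (Measure.restrict_mono sdiff_subset le_rfl)) ?_
    filter_upwards [ae_restrict_mem (measurableSet_ball.diff measurableSet_closedBall)] with z hz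
    have hz1 : ‖z‖ < 1 := mem_ball_zero_iff.1 hz.1
    have hz2 : ρ ≤ ‖z‖ := by
      have := hz.2
      rw [mem_closedBall_zero_iff, not_le] at this
      exact this.le
    have h4 : 0 ≤ (1 - ‖z‖) * ‖g z‖ ^ q :=
      mul_nonneg (by linarith) (by positivity)
    rw [Real.norm_of_nonneg h4]
    exact (h z hz2 hz1).trans (mul_le_mul_of_nonneg_left (le_abs_self _) hC)
  refine (h1.union h2).mono_set ?_
  intro z hz
  by_cases hz' : z ∈ closedBall (0 : ℂ) ρ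
  · exact Or.inl hz'
  · exact Or.inr ⟨hz, hz'⟩

/-- Bernoulli -/
theorem bern {q x : ℝ} (hq : 0 < q) (hx0 : 0 ≤ x) (hx1 : x ≤ 1) :
    (1 - x) ^ q ≤ 1 - min 1 q * x := by
  rcases le_total q 1 with h | h
  · rw [min_eq_right h]
    have h1 := rpow_one_add_le_one_add_mul_self (s := -x) (by linarith) hq.le h
    have e1 : (1 : ℝ) + -x = 1 - x := by ring
    rw [e1] at h1
    linarith
  · rw [min_eq_left h, one_mul]
    rcases (show 0 ≤ 1 - x by linarith).eq_or_lt with h0 | h0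
    · rw [← h0, Real.zero_rpow (by linarith)]
    · calc (1 - x) ^ q ≤ (1 - x) ^ (1 : ℝ) :=
            Real.rpow_le_rpow_of_exponent_ge h0 (by linarith) h
        _ = _ := Real.rpow_one _

end WT0Aux

theorem wt0 (hH : S_HOP) : S_WT0 := by
  intro κ q f g hκ0 hκ1 hq hL
  obtain ⟨a, ha0, ha1, ha⟩ := hH κ ((1 + κ) / 2) f g hκ0 (by linarith) (by linarith) hL.df hL.dg
    hL.le hL.lt
  have hm : 0 < min 1 q := lt_min one_pos hq
  refine WT0Aux.comp0 (Φ := Dp q f g) (ρ := (1 + κ) / 2) (C := (min 1 q * a)⁻¹) hL.dg hq.le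
    (by linarith) (by positivity) hL.int ?_
  intro z hz0 hz1
  have h1 := ha z hz0 hz1
  have hs : 0 < 1 - ‖z‖ := by linarith
  have hs1 : 1 - ‖z‖ ≤ 1 := by linarith [norm_nonneg z]
  have hs2 : a * (1 - ‖z‖) ≤ 1 := by nlinarith
  have hs3 : 0 ≤ a * (1 - ‖z‖) := by positivity
  have h2 : ‖f z‖ ^ q ≤ (1 - min 1 q * (a * (1 - ‖z‖))) * ‖g z‖ ^ q := by
    calc ‖f z‖ ^ q ≤ ((1 - a * (1 - ‖z‖)) * ‖g z‖) ^ q :=
          Real.rpow_le_rpow (norm_nonneg _) h1 hq.le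
      _ = (1 - a * (1 - ‖z‖)) ^ q * ‖g z‖ ^ q :=
          Real.mul_rpow (by linarith) (norm_nonneg _)
      _ ≤ (1 - min 1 q * (a * (1 - ‖z‖))) * ‖g z‖ ^ q :=
          mul_le_mul_of_nonneg_right (WT0Aux.bern hq hs3 hs2) (by positivity)
  have h3 : min 1 q * a * ((1 - ‖z‖) * ‖g z‖ ^ q) ≤ Dp q f g z := by
    unfold Dp
    linarith
  calc (1 - ‖z‖) * ‖g z‖ ^ q = (min 1 q * a)⁻¹ * (min 1 q * a * ((1 - ‖z‖) * ‖g z‖ ^ q)) := by
        field_simp
    _ ≤ (min 1 q * a)⁻¹ * Dp q f g z := mul_le_mul_of_nonneg_left h3 (by positivity)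

end Pool.Agent.KRD
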